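import Mathlib
import Pool.Agent.TH854.KS.K3

/-! Counting solutions of `∑ x_i ^ k = n` in `ℤ/q`: multiplicativity, fibres of reductions. -/

set_option autoImplicit false

open Finset

namespace Pool.Agent.V5helper16.CT

/-- the number of solutions of `x_1 ^ k + ... + x_d ^ k = n` in `ℤ/q` -/
noncomputable def N (q k d : ℕ) (n : ZMod q) : ℕ := Nat.card {x : Fin d → ZMod q // ∑ i, x i ^ k = n}

/-- Chinese remainder theorem for solutions -/
def crtEquiv {m n : ℕ} (h : m.Coprime n) (k d : ℕ) (t : ZMod (m * n)) :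
    {x : Fin d → ZMod (m * n) // ∑ i, x i ^ k = t} ≃
      {x : Fin d → ZMod m // ∑ i, x i ^ k = (ZMod.chineseRemainder h t).1} ×
        {x : Fin d → ZMod n // ∑ i, x i ^ k = (ZMod.chineseRemainder h t).2} where
  toFun x := (⟨fun i => (ZMod.chineseRemainder h (x.1 i)).1, by
      have := congrArg (fun y => (ZMod.chineseRemainder h y).1) x.2
      simpa [Prod.fst_sum] using this⟩,
    ⟨fun i => (ZMod.chineseRemainder h (x.1 i)).2, by
      have := congrArg (fun y => (ZMod.chineseRemainder h y).2) x.2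
      simpa [Prod.snd_sum] using this⟩)
  invFun y := ⟨fun i => (ZMod.chineseRemainder h).symm (y.1.1 i, y.2.1 i), by
      apply (ZMod.chineseRemainder h).injective
      rw [map_sum]
      apply Prod.ext
      · rw [Prod.fst_sum]
        simpa using y.1.2
      · rw [Prod.snd_sum]
        simpa using y.2.2⟩
  left_inv x := by
    apply Subtype.ext
    funext i
    simp
  right_inv y := by
    apply Prod.ext
    · apply Subtype.ext
      funext i
      simp
    · apply Subtype.ext
      funext i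
      simp

lemma N_mul {m n : ℕ} (h : m.Coprime n) (k d : ℕ) (t : ZMod (m * n)) :
    N (m * n) k d t = N m k d (ZMod.chineseRemainder h t).1 * N n k d (ZMod.chineseRemainder h t).2 := by
  unfold N
  rw [Nat.card_congr (crtEquiv h k d t), Nat.card_prod]

lemma N_one (k d : ℕ) (t : ZMod 1) : N 1 k d t = 1 := by
  unfold N
  rw [Nat.card_eq_one_iff_unique]
  refine ⟨⟨fun a b => Subtype.ext (Subsingleton.elim _ _)⟩, ⟨⟨fun _ => 0, Subsingleton.elim _ _⟩⟩⟩

lemma N_eq {q : ℕ} [NeZero q] (k d : ℕ) (n : ZMod q) :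
    N q k d n = (univ.filter (fun x : Fin d → ZMod q => ∑ i, x i ^ k = n)).card := by
  classical
  unfold N
  rw [Nat.card_eq_fintype_card, Fintype.card_subtype]

lemma N_zero (q k d : ℕ) : N q k d 0 = TH854.KS.M q k d := rfl

/-- fibres of a reduction -/
lemma card_fiber {A B : ℕ} [NeZero A] [NeZero B] (h : B ∣ A) (z : ZMod B) :
    (univ.filter (fun x : ZMod A => ZMod.castHom h (ZMod B) x = z)).card * B = A := by
  classical
  set f : ZMod A →+* ZMod B := ZMod.castHom h (ZMod B) with hf
  have hsurj : Function.Surjective f := ZMod.castHom_surjective h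
  have heq : ∀ w : ZMod B, (univ.filter (fun x : ZMod A => f x = w)).card =
      (univ.filter (fun x : ZMod A => f x = z)).card := by
    intro w
    have := AddMonoidHom.card_fiber_eq_of_mem_range (f : ZMod A →+* ZMod B).toAddMonoidHom
      (x := w) (y := z) (hsurj w) (hsurj z)
    exact this
  have hsum : ∑ w : ZMod B, (univ.filter (fun x : ZMod A => f x = w)).card = A := by
    rw [← card_eq_sum_card_fiberwise (fun x _ => mem_univ _), card_univ, ZMod.card]
  simp_rw [heq] at hsum
  rw [sum_const, card_univ, ZMod.card, smul_eq_mul, mul_comm] at hsum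
  exact hsum

/-- fibres of a reduction, several variables -/
lemma card_fiber_pi {ι : Type*} [Fintype ι] [DecidableEq ι] {A B : ℕ} [NeZero A] [NeZero B]
    (h : B ∣ A) (z : ι → ZMod B) :
    (univ.filter (fun x : ι → ZMod A => ∀ i, ZMod.castHom h (ZMod B) (x i) = z i)).card *
      B ^ Fintype.card ι = A ^ Fintype.card ι := by
  classical
  have h1 : univ.filter (fun x : ι → ZMod A => ∀ i, ZMod.castHom h (ZMod B) (x i) = z i) =
      Fintype.piFinset (fun i => univ.filter (fun x : ZMod A => ZMod.castHom h (ZMod B) x = z i)) := by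
    ext x
    rw [mem_filter, Fintype.mem_piFinset]
    constructor
    · intro hx i
      rw [mem_filter]
      exact ⟨mem_univ _, hx.2 i⟩
    · intro hx
      exact ⟨mem_univ _, fun i => (mem_filter.mp (hx i)).2⟩
  rw [h1, Fintype.card_piFinset]
  have h2 : (B ^ Fintype.card ι : ℕ) = ∏ _i : ι, B := by rw [prod_const, card_univ]
  have h3 : (A ^ Fintype.card ι : ℕ) = ∏ _i : ι, A := by rw [prod_const, card_univ]
  rw [h2, h3, ← prod_mul_distrib]
  exact prod_congr rfl (fun i _ => card_fiber h (z i))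

/-- counting by reductions -/
lemma card_red {ι : Type*} [Fintype ι] [DecidableEq ι] {A B : ℕ} [NeZero A] [NeZero B]
    (h : B ∣ A) (S : Finset (ι → ZMod B)) :
    (univ.filter (fun x : ι → ZMod A => (fun i => ZMod.castHom h (ZMod B) (x i)) ∈ S)).card *
      B ^ Fintype.card ι = A ^ Fintype.card ι * S.card := by
  classical
  set T := univ.filter (fun x : ι → ZMod A => (fun i => ZMod.castHom h (ZMod B) (x i)) ∈ S) with hT
  have hmap : ∀ x ∈ T, (fun i => ZMod.castHom h (ZMod B) (x i)) ∈ S := by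
    intro x hx
    exact (mem_filter.mp hx).2
  rw [card_eq_sum_card_fiberwise hmap, sum_mul]
  have h1 : ∀ z ∈ S, (T.filter (fun x => (fun i => ZMod.castHom h (ZMod B) (x i)) = z)).card *
      B ^ Fintype.card ι = A ^ Fintype.card ι := by
    intro z hz
    rw [← card_fiber_pi h z]
    congr 2
    ext x
    rw [hT, mem_filter, mem_filter, mem_filter]
    constructor
    · rintro ⟨_, h2⟩
      exact ⟨mem_univ _, fun i => congrFun h2 i⟩
    · rintro ⟨_, h2⟩
      have h3 : (fun i => ZMod.castHom h (ZMod B) (x i)) = z := funext h2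
      exact ⟨⟨mem_univ _, h3 ▸ hz⟩, h3⟩
  rw [sum_congr rfl h1, sum_const, smul_eq_mul, mul_comm]

lemma castHom_eq_zero_iff {A B : ℕ} [NeZero A] (h : B ∣ A) (x : ZMod A) :
    ZMod.castHom h (ZMod B) x = 0 ↔ (B : ZMod A) ∣ x := by
  constructor
  · intro hx
    have h1 : ZMod.castHom h (ZMod B) x = (x.val : ZMod B) := by
      conv_lhs => rw [← ZMod.natCast_zmod_val x]
      rw [map_natCast]
    rw [h1, ZMod.natCast_eq_zero_iff] at hx
    obtain ⟨c, hc⟩ := hx
    refine ⟨(c : ZMod A), ?_⟩
    rw [← ZMod.natCast_zmod_val x, hc]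
    push_cast
    rfl
  · rintro ⟨c, rfl⟩
    rw [map_mul, map_natCast, ZMod.natCast_self, zero_mul]

lemma castHom_eq_iff {A B : ℕ} [NeZero A] (h : B ∣ A) (x y : ZMod A) :
    ZMod.castHom h (ZMod B) x = ZMod.castHom h (ZMod B) y ↔ (B : ZMod A) ∣ x - y := by
  rw [← castHom_eq_zero_iff h, map_sub, sub_eq_zero]

lemma isUnit_iff {p γ : ℕ} (hp : p.Prime) (hγ : 1 ≤ γ) (x : ZMod (p ^ γ)) :
    IsUnit x ↔ ¬ (p : ZMod (p ^ γ)) ∣ x := by
  have : NeZero (p ^ γ) := ⟨pow_ne_zero _ hp.ne_zero⟩
  have hd : p ∣ p ^ γ := dvd_pow_self p (by omega)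
  rw [← castHom_eq_zero_iff hd]
  have h1 : ZMod.castHom hd (ZMod p) x = (x.val : ZMod p) := by
    conv_lhs => rw [← ZMod.natCast_zmod_val x]
    rw [map_natCast]
  rw [h1, ZMod.natCast_eq_zero_iff]
  conv_lhs => rw [← ZMod.natCast_zmod_val x]
  rw [ZMod.isUnit_iff_coprime]
  constructor
  · intro h2 h3
    have h4 := Nat.dvd_gcd h3 hd
    rw [Nat.Coprime] at h2
    rw [h2] at h4
    exact hp.one_lt.ne' (Nat.dvd_one.mp h4)
  · intro h2
    apply Nat.Coprime.pow_right
    exact ((Nat.Prime.coprime_iff_not_dvd hp).mpr h2).symm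

end Pool.Agent.V5helper16.CT
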