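import Mathlib
import Pool.Agent.V5helper16.CT.A1

/-! Solutions modulo prime powers: the solutions divisible by `p`. -/

set_option autoImplicit false

open Finset

namespace Pool.Agent.V5helper16.CT

variable {p : ℕ} [Fact p.Prime]

/-- solutions divisible by `p` -/
noncomputable def Z (p : ℕ) [Fact p.Prime] (γ k d : ℕ) (n : ZMod (p ^ γ)) : ℕ :=
  Nat.card {x : Fin d → ZMod (p ^ γ) // ∑ i, x i ^ k = n ∧ ∀ i, (p : ZMod (p ^ γ)) ∣ x i}

/-- primitive solutions -/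
noncomputable def P (p : ℕ) [Fact p.Prime] (γ k d : ℕ) (n : ZMod (p ^ γ)) : ℕ :=
  Nat.card {x : Fin d → ZMod (p ^ γ) // ∑ i, x i ^ k = n ∧ ∃ i, ¬ (p : ZMod (p ^ γ)) ∣ x i}

open Classical in
lemma Z_eq (γ k d : ℕ) (n : ZMod (p ^ γ)) : Z p γ k d n =
    (univ.filter (fun x : Fin d → ZMod (p ^ γ) => ∑ i, x i ^ k = n ∧
      ∀ i, (p : ZMod (p ^ γ)) ∣ x i)).card := by
  unfold Z
  rw [Nat.card_eq_fintype_card, Fintype.card_subtype]

open Classical in
lemma P_eq (γ k d : ℕ) (n : ZMod (p ^ γ)) : P p γ k d n =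
    (univ.filter (fun x : Fin d → ZMod (p ^ γ) => ∑ i, x i ^ k = n ∧
      ∃ i, ¬ (p : ZMod (p ^ γ)) ∣ x i)).card := by
  unfold P
  rw [Nat.card_eq_fintype_card, Fintype.card_subtype]

lemma N_eq_add (γ k d : ℕ) (n : ZMod (p ^ γ)) : N (p ^ γ) k d n = Z p γ k d n + P p γ k d n := by
  classical
  rw [N_eq, Z_eq, P_eq, ← card_union_of_disjoint]
  · congr 1
    ext x
    rw [mem_union, mem_filter, mem_filter, mem_filter]
    constructor
    · rintro ⟨_, h⟩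
      by_cases h2 : ∀ i, (p : ZMod (p ^ γ)) ∣ x i
      · exact Or.inl ⟨mem_univ _, h, h2⟩
      · push Not at h2
        exact Or.inr ⟨mem_univ _, h, h2⟩
    · rintro (⟨_, h, _⟩ | ⟨_, h, _⟩) <;> exact ⟨mem_univ _, h⟩
  · rw [disjoint_left]
    intro x hx hx2
    rw [mem_filter] at hx hx2
    obtain ⟨i, hi⟩ := hx2.2.2
    exact hi (hx.2.2 i)

lemma Z_le {γ : ℕ} (hγ : 1 ≤ γ) (k d : ℕ) (n : ZMod (p ^ γ)) :
    Z p γ k d n * p ^ d ≤ (p ^ γ) ^ d := by
  classical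
  have hd : p ∣ p ^ γ := dvd_pow_self p (by omega)
  have h1 := card_red (ι := Fin d) hd ({0} : Finset (Fin d → ZMod p))
  rw [card_singleton, mul_one, Fintype.card_fin] at h1
  rw [← h1]
  apply Nat.mul_le_mul_right
  rw [Z_eq]
  apply card_le_card
  intro x hx
  rw [mem_filter] at hx ⊢
  refine ⟨mem_univ _, ?_⟩
  rw [mem_singleton]
  funext i
  exact (castHom_eq_zero_iff hd (x i)).mpr (hx.2.2 i)

lemma mul_eq_zero_iff' {a γ : ℕ} (ha : a ≤ γ) (u : ZMod (p ^ γ)) :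
    (p : ZMod (p ^ γ)) ^ a * u = 0 ↔
      ZMod.castHom (pow_dvd_pow p (Nat.sub_le γ a)) (ZMod (p ^ (γ - a))) u = 0 := by
  have hp : p.Prime := Fact.out
  have h1 : ZMod.castHom (pow_dvd_pow p (Nat.sub_le γ a)) (ZMod (p ^ (γ - a))) u =
      (u.val : ZMod (p ^ (γ - a))) := by
    conv_lhs => rw [← ZMod.natCast_zmod_val u]
    rw [map_natCast]
  rw [h1, ZMod.natCast_eq_zero_iff]
  conv_lhs => rw [← ZMod.natCast_zmod_val u]
  rw [← Nat.cast_pow, ← Nat.cast_mul, ZMod.natCast_eq_zero_iff]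
  have h2 : p ^ γ = p ^ a * p ^ (γ - a) := by rw [← pow_add]; congr 1; omega
  generalize u.val = w
  rw [h2]
  exact Nat.mul_dvd_mul_iff_left (pow_pos hp.pos a)

/-- the number of `y` with `p y = x` -/
lemma card_mul_p {γ : ℕ} (hγ : 1 ≤ γ) (x : ZMod (p ^ γ)) (hx : (p : ZMod (p ^ γ)) ∣ x) :
    (univ.filter (fun y : ZMod (p ^ γ) => (p : ZMod (p ^ γ)) * y = x)).card = p := by
  classical
  have hp : p.Prime := Fact.out
  obtain ⟨y0, rfl⟩ := hx
  have h1 : univ.filter (fun y : ZMod (p ^ γ) => (p : ZMod (p ^ γ)) * y = p * y0) =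
      univ.filter (fun y : ZMod (p ^ γ) => ZMod.castHom (pow_dvd_pow p (Nat.sub_le γ 1))
        (ZMod (p ^ (γ - 1))) y = ZMod.castHom (pow_dvd_pow p (Nat.sub_le γ 1))
        (ZMod (p ^ (γ - 1))) y0) := by
    apply filter_congr
    intro y _
    have h2 := mul_eq_zero_iff' (p := p) hγ (y - y0)
    rw [pow_one, mul_sub, sub_eq_zero, map_sub, sub_eq_zero] at h2
    exact h2
  rw [h1]
  have h3 := card_fiber (pow_dvd_pow p (Nat.sub_le γ 1)) (ZMod.castHom (pow_dvd_pow p (Nat.sub_le γ 1))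
        (ZMod (p ^ (γ - 1))) y0)
  have h4 : p ^ γ = p * p ^ (γ - 1) := by rw [← pow_succ']; congr 1; omega
  exact Nat.eq_of_mul_eq_mul_right (pow_pos hp.pos (γ - 1)) (h3.trans h4)

/-- the recursion for the solutions divisible by `p` -/
lemma Z_rec {γ k : ℕ} (hk : 1 ≤ k) (hγ : k ≤ γ) (d : ℕ) (n : ℤ) :
    Z p γ k d (((p : ℤ) ^ k * n : ℤ) : ZMod (p ^ γ)) * p ^ d =
      (p ^ k) ^ d * N (p ^ (γ - k)) k d (n : ZMod (p ^ (γ - k))) := by
  classical
  have hp : p.Prime := Fact.out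
  set h := pow_dvd_pow p (Nat.sub_le γ k) with hh
  set S := univ.filter (fun z : Fin d → ZMod (p ^ (γ - k)) => ∑ i, z i ^ k = (n : ZMod (p ^ (γ - k)))) with hS
  set Y := univ.filter (fun y : Fin d → ZMod (p ^ γ) => (fun i => ZMod.castHom h (ZMod (p ^ (γ - k))) (y i)) ∈ S)
    with hY
  have hY1 : Y.card = (p ^ k) ^ d * N (p ^ (γ - k)) k d (n : ZMod (p ^ (γ - k))) := by
    have h1 := card_red (ι := Fin d) h S
    rw [Fintype.card_fin, ← hY] at h1
    rw [N_eq, ← hS]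
    have h2 : (p ^ γ) ^ d = (p ^ k) ^ d * (p ^ (γ - k)) ^ d := by
      rw [← mul_pow, ← pow_add]; congr 2; omega
    rw [h2, mul_right_comm] at h1
    exact Nat.eq_of_mul_eq_mul_right (pow_pos (pow_pos hp.pos _) _) h1
  have hYmem : ∀ y : Fin d → ZMod (p ^ γ), y ∈ Y ↔
      ∑ i, ((p : ZMod (p ^ γ)) * y i) ^ k = (((p : ℤ) ^ k * n : ℤ) : ZMod (p ^ γ)) := by
    intro y
    rw [hY, mem_filter, hS, mem_filter]
    have h1 : ∑ i, ((p : ZMod (p ^ γ)) * y i) ^ k = (p : ZMod (p ^ γ)) ^ k * ∑ i, y i ^ k := by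
      rw [mul_sum]
      exact sum_congr rfl (fun i _ => mul_pow _ _ _)
    rw [h1]
    push_cast
    rw [← sub_eq_zero (b := (p : ZMod (p ^ γ)) ^ k * (n : ZMod (p ^ γ))), ← mul_sub, mul_eq_zero_iff' hγ, map_sub,
      map_sum, map_intCast, sub_eq_zero]
    simp only [mem_univ, true_and, map_pow]
  rw [← hY1, Z_eq]
  set T := univ.filter (fun x : Fin d → ZMod (p ^ γ) =>
      ∑ i, x i ^ k = (((p : ℤ) ^ k * n : ℤ) : ZMod (p ^ γ)) ∧ ∀ i, (p : ZMod (p ^ γ)) ∣ x i) with hT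
  have hmap : ∀ y ∈ Y, (fun i => (p : ZMod (p ^ γ)) * y i) ∈ T := by
    intro y hy
    rw [hT, mem_filter]
    exact ⟨mem_univ _, (hYmem y).mp hy, fun i => ⟨y i, rfl⟩⟩
  rw [card_eq_sum_card_fiberwise hmap]
  have h5 : ∀ x ∈ T, (Y.filter (fun y => (fun i => (p : ZMod (p ^ γ)) * y i) = x)).card = p ^ d := by
    intro x hx
    rw [hT, mem_filter] at hx
    have h6 : Y.filter (fun y => (fun i => (p : ZMod (p ^ γ)) * y i) = x) =
        Fintype.piFinset (fun i => univ.filter (fun y : ZMod (p ^ γ) => (p : ZMod (p ^ γ)) * y = x i)) := by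
      ext y
      rw [mem_filter, Fintype.mem_piFinset, hYmem]
      constructor
      · rintro ⟨_, h7⟩ i
        rw [mem_filter]
        exact ⟨mem_univ _, congrFun h7 i⟩
      · intro h7
        have h8 : (fun i => (p : ZMod (p ^ γ)) * y i) = x := by
          funext i
          exact (mem_filter.mp (h7 i)).2
        refine ⟨?_, h8⟩
        rw [← hx.2.1]
        exact sum_congr rfl (fun i _ => by rw [← congrFun h8 i])
    rw [h6, Fintype.card_piFinset, prod_congr rfl (fun i _ => card_mul_p (by omega) (x i) (hx.2.2 i)),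
      prod_const, card_univ, Fintype.card_fin]
  rw [sum_congr rfl h5, sum_const, smul_eq_mul]

/-- a solution divisible by `p` forces `p ^ k ∣ n` -/
lemma Z_ne_zero {γ k d : ℕ} {n : ZMod (p ^ γ)} (h : Z p γ k d n ≠ 0) :
    ∃ m : ℤ, n = (((p : ℤ) ^ k * m : ℤ) : ZMod (p ^ γ)) := by
  classical
  rw [Z_eq] at h
  obtain ⟨x, hx⟩ := card_pos.mp (Nat.pos_of_ne_zero h)
  rw [mem_filter] at hx
  obtain ⟨_, h1, h2⟩ := hx
  choose y hy using h2
  refine ⟨((∑ i, y i ^ k).val : ℤ), ?_⟩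
  rw [← h1]
  push_cast
  rw [ZMod.natCast_zmod_val, mul_sum]
  apply sum_congr rfl
  intro i _
  rw [hy i, mul_pow]

end Pool.Agent.V5helper16.CT
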