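import Mathlib
import Pool.Agent.V5helper16.CT.A2

/-! Solutions modulo prime powers: the primitive solutions. -/

set_option autoImplicit false

open Finset

namespace Pool.Agent.V5helper16.CT

variable {p : ℕ} [Fact p.Prime]

omit [Fact p.Prime] in
lemma pow_dvd_aux (hp : p.Prime) {γ v X Y : ℕ} (h : p ^ γ ∣ X * Y) (hY : ¬ p ^ (v + 1) ∣ Y) :
    p ^ (γ - v) ∣ X := by
  have hY0 : Y ≠ 0 := by rintro rfl; exact hY (dvd_zero _)
  obtain ⟨u, Y', hY', rfl⟩ := Nat.exists_eq_pow_mul_and_not_dvd hY0 p hp.ne_one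
  have hu : u ≤ v := by
    by_contra hcon
    push Not at hcon
    exact hY (Dvd.dvd.mul_right (pow_dvd_pow p hcon) Y')
  have h1 : p ^ γ ∣ (X * p ^ u) * Y' := by rwa [mul_assoc]
  have h2 : p ^ γ ∣ X * p ^ u := by
    apply Nat.Coprime.dvd_of_dvd_mul_right _ h1
    exact Nat.Coprime.pow_left γ ((Nat.Prime.coprime_iff_not_dvd hp).mpr hY')
  rcases Nat.lt_or_ge γ v with h3 | h3
  · rw [Nat.sub_eq_zero_of_le h3.le, pow_zero]
    exact one_dvd _
  · have h4 : p ^ γ = p ^ (γ - u) * p ^ u := by rw [← pow_add]; congr 1; omega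
    rw [h4] at h2
    have h5 := Nat.dvd_of_mul_dvd_mul_right (pow_pos hp.pos u) h2
    exact (pow_dvd_pow p (by omega)).trans h5

/-- uniqueness of roots -/
lemma root_unique {γ v k : ℕ} (hv : ¬ p ^ (v + 1) ∣ k) (hγ : v + 1 ≤ γ) (r r' : ZMod (p ^ γ))
    (hr : ¬ (p : ZMod (p ^ γ)) ∣ r) (h : r ^ k = r' ^ k)
    (hrr : ZMod.castHom (pow_dvd_pow p hγ) (ZMod (p ^ (v + 1))) r =
      ZMod.castHom (pow_dvd_pow p hγ) (ZMod (p ^ (v + 1))) r') :
    ZMod.castHom (pow_dvd_pow p (Nat.sub_le γ v)) (ZMod (p ^ (γ - v))) r =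
      ZMod.castHom (pow_dvd_pow p (Nat.sub_le γ v)) (ZMod (p ^ (γ - v))) r' := by
  have hp : p.Prime := Fact.out
  set S : ZMod (p ^ γ) := ∑ i ∈ range k, r ^ i * r' ^ (k - 1 - i) with hS
  have h1 : (r - r') * S = 0 := by
    have := geom_sum₂_mul (x := r) (y := r') k
    rw [← hS, h, sub_self] at this
    rw [mul_comm]; exact this
  have hk0 : k ≠ 0 := by rintro rfl; exact hv (dvd_zero _)
  have h2 : ¬ p ^ (v + 1) ∣ S.val := by
    intro hcon
    have h3 : ZMod.castHom (pow_dvd_pow p hγ) (ZMod (p ^ (v + 1))) S = 0 := by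
      have h4 : ZMod.castHom (pow_dvd_pow p hγ) (ZMod (p ^ (v + 1))) S = (S.val : ZMod (p ^ (v + 1))) := by
        conv_lhs => rw [← ZMod.natCast_zmod_val S]
        rw [map_natCast]
      rw [h4, ZMod.natCast_eq_zero_iff]
      exact hcon
    rw [hS, map_sum] at h3
    simp_rw [map_mul, map_pow, ← hrr] at h3
    have h5 : ∀ i ∈ range k, (ZMod.castHom (pow_dvd_pow p hγ) (ZMod (p ^ (v + 1))) r) ^ i *
        (ZMod.castHom (pow_dvd_pow p hγ) (ZMod (p ^ (v + 1))) r) ^ (k - 1 - i) =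
        (ZMod.castHom (pow_dvd_pow p hγ) (ZMod (p ^ (v + 1))) r) ^ (k - 1) := by
      intro i hi
      rw [mem_range] at hi
      rw [← pow_add]
      congr 1
      omega
    rw [sum_congr rfl h5, sum_const, card_range, nsmul_eq_mul] at h3
    have h6 : IsUnit r := (isUnit_iff hp (by omega) r).mpr hr
    have h7 : IsUnit ((ZMod.castHom (pow_dvd_pow p hγ) (ZMod (p ^ (v + 1))) r) ^ (k - 1)) :=
      (h6.map _).pow _
    have h8 := (h7.mul_left_eq_zero).mp h3
    rw [ZMod.natCast_eq_zero_iff] at h8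
    exact hv h8
  have h3 : p ^ γ ∣ (r - r').val * S.val := by
    rw [← ZMod.natCast_eq_zero_iff, Nat.cast_mul, ZMod.natCast_zmod_val, ZMod.natCast_zmod_val]
    exact h1
  have h4 := pow_dvd_aux hp h3 h2
  rw [castHom_eq_iff]
  obtain ⟨c, hc⟩ := h4
  refine ⟨(c : ZMod (p ^ γ)), ?_⟩
  rw [← Nat.cast_mul, ← hc, ZMod.natCast_zmod_val]

/-- upper bound for the solutions above a given primitive vector -/
lemma fiber_upper {γ v k d : ℕ} (hv : ¬ p ^ (v + 1) ∣ k) (hγ : v + 1 ≤ γ) (n : ZMod (p ^ γ))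
    (z : Fin d → ZMod (p ^ (v + 1))) (hz : ∃ i, ¬ (p : ZMod (p ^ (v + 1))) ∣ z i) :
    (univ.filter (fun x : Fin d → ZMod (p ^ γ) => ∑ i, x i ^ k = n ∧
      ∀ i, ZMod.castHom (pow_dvd_pow p hγ) (ZMod (p ^ (v + 1))) (x i) = z i)).card ≤
      p ^ v * (p ^ (γ - (v + 1))) ^ (d - 1) := by
  classical
  have hp : p.Prime := Fact.out
  obtain ⟨i0, hi0⟩ := hz
  set S := univ.filter (fun x : Fin d → ZMod (p ^ γ) => ∑ i, x i ^ k = n ∧
      ∀ i, ZMod.castHom (pow_dvd_pow p hγ) (ZMod (p ^ (v + 1))) (x i) = z i) with hS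
  set W := univ.filter (fun w : {j : Fin d // j ≠ i0} → ZMod (p ^ γ) =>
      ∀ j, ZMod.castHom (pow_dvd_pow p hγ) (ZMod (p ^ (v + 1))) (w j) = z j.1) with hW
  have hWc : W.card = (p ^ (γ - (v + 1))) ^ (d - 1) := by
    have h1 := card_fiber_pi (ι := {j : Fin d // j ≠ i0}) (pow_dvd_pow p hγ) (fun j => z j.1)
    have h2 : Fintype.card {j : Fin d // j ≠ i0} = d - 1 := by
      rw [Fintype.card_subtype_compl, Fintype.card_fin, Fintype.card_subtype_eq]
    rw [h2] at h1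
    have h3 : (p ^ γ) ^ (d - 1) = (p ^ (γ - (v + 1))) ^ (d - 1) * (p ^ (v + 1)) ^ (d - 1) := by
      rw [← mul_pow, ← pow_add]; congr 2; omega
    rw [h3] at h1
    exact Nat.eq_of_mul_eq_mul_right (pow_pos (pow_pos hp.pos _) _) h1
  rw [← hWc]
  apply card_le_mul_card_image_of_maps_to (f := fun x (j : {j : Fin d // j ≠ i0}) => x j.1)
  · intro x hx
    rw [hS, mem_filter] at hx
    rw [hW, mem_filter]
    exact ⟨mem_univ _, fun j => hx.2.2 j.1⟩
  · intro w _
    rcases Finset.eq_empty_or_nonempty (S.filter (fun x => (fun (j : {j : Fin d // j ≠ i0}) => x j.1) = w))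
      with he | ⟨x0, hx0⟩
    · rw [he, card_empty]; exact Nat.zero_le _
    · -- all the others are congruent to `x0` modulo `p ^ (γ - v)`
      rw [mem_filter, hS, mem_filter] at hx0
      have h1 : (univ.filter (fun y : ZMod (p ^ γ) =>
          ZMod.castHom (pow_dvd_pow p (Nat.sub_le γ v)) (ZMod (p ^ (γ - v))) y =
          ZMod.castHom (pow_dvd_pow p (Nat.sub_le γ v)) (ZMod (p ^ (γ - v))) (x0 i0))).card = p ^ v := by
        have h2 := card_fiber (pow_dvd_pow p (Nat.sub_le γ v))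
          (ZMod.castHom (pow_dvd_pow p (Nat.sub_le γ v)) (ZMod (p ^ (γ - v))) (x0 i0))
        have h3 : p ^ γ = p ^ v * p ^ (γ - v) := by rw [← pow_add]; congr 1; omega
        exact Nat.eq_of_mul_eq_mul_right (pow_pos hp.pos (γ - v)) (h2.trans h3)
      rw [← h1]
      apply card_le_card_of_injOn (fun x => x i0)
      · intro x hx
        rw [mem_coe, mem_filter, hS, mem_filter] at hx
        rw [mem_coe, mem_filter]
        refine ⟨mem_univ _, ?_⟩
        have hsum : ∀ y : Fin d → ZMod (p ^ γ), ∑ i, y i ^ k =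
            y i0 ^ k + ∑ j : {j : Fin d // j ≠ i0}, y j.1 ^ k :=
          fun y => Fintype.sum_eq_add_sum_subtype_ne (fun i => y i ^ k) i0
        have h4 : x i0 ^ k = x0 i0 ^ k := by
          have h5 := hx.1.2.1.trans hx0.1.2.1.symm
          rw [hsum x, hsum x0] at h5
          have h6 : ∑ j : {j : Fin d // j ≠ i0}, x j.1 ^ k = ∑ j : {j : Fin d // j ≠ i0}, x0 j.1 ^ k := by
            apply sum_congr rfl
            intro j _
            have h7 : x j.1 = w j := congrFun hx.2 j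
            have h8 : x0 j.1 = w j := congrFun hx0.2 j
            rw [h7, h8]
          rw [h6] at h5
          exact add_right_cancel h5
        have hnd : ¬ (p : ZMod (p ^ γ)) ∣ x i0 := by
          intro hcon
          apply hi0
          rw [← hx.1.2.2 i0]
          have := map_dvd (ZMod.castHom (pow_dvd_pow p hγ) (ZMod (p ^ (v + 1)))) hcon
          rwa [map_natCast] at this
        exact root_unique hv hγ (x i0) (x0 i0) hnd h4 (by rw [hx.1.2.2 i0, hx0.1.2.2 i0])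
      · intro x hx y hy hxy
        rw [mem_coe, mem_filter] at hx hy
        funext j
        by_cases hj : j = i0
        · rw [hj]; exact hxy
        · have h7 : x j = w ⟨j, hj⟩ := congrFun hx.2 ⟨j, hj⟩
          have h8 : y j = w ⟨j, hj⟩ := congrFun hy.2 ⟨j, hj⟩
          rw [h7, h8]

/-- lower bound for the solutions above a given primitive vector -/
lemma fiber_lower {γ e k d : ℕ} (heγ : e ≤ γ) (R : ZMod (p ^ γ) → ZMod (p ^ γ) → Prop)
    (H : ∀ a t : ZMod (p ^ γ), ¬ (p : ZMod (p ^ γ)) ∣ a → ((p ^ e : ℕ) : ZMod (p ^ γ)) ∣ t - a ^ k →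
      ∃ r, r ^ k = t ∧ R a r)
    (n : ZMod (p ^ γ)) (z : Fin d → ZMod (p ^ γ))
    (hz : ((p ^ e : ℕ) : ZMod (p ^ γ)) ∣ n - ∑ i, z i ^ k) (i0 : Fin d)
    (hi0 : ¬ (p : ZMod (p ^ γ)) ∣ z i0) :
    (p ^ (γ - e)) ^ (d - 1) ≤ Nat.card {x : Fin d → ZMod (p ^ γ) // ∑ i, x i ^ k = n ∧
      (∀ j, j ≠ i0 → ((p ^ e : ℕ) : ZMod (p ^ γ)) ∣ x j - z j) ∧ R (z i0) (x i0)} := by
  classical
  have hp : p.Prime := Fact.out
  rw [Nat.card_eq_fintype_card, Fintype.card_subtype]
  set W := univ.filter (fun w : {j : Fin d // j ≠ i0} → ZMod (p ^ γ) =>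
      ∀ j, ZMod.castHom (pow_dvd_pow p heγ) (ZMod (p ^ e)) (w j) =
        ZMod.castHom (pow_dvd_pow p heγ) (ZMod (p ^ e)) (z j.1)) with hW
  have hWc : W.card = (p ^ (γ - e)) ^ (d - 1) := by
    have h1 := card_fiber_pi (ι := {j : Fin d // j ≠ i0}) (pow_dvd_pow p heγ)
      (fun j => ZMod.castHom (pow_dvd_pow p heγ) (ZMod (p ^ e)) (z j.1))
    have h2 : Fintype.card {j : Fin d // j ≠ i0} = d - 1 := by
      rw [Fintype.card_subtype_compl, Fintype.card_fin, Fintype.card_subtype_eq]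
    rw [h2] at h1
    have h3 : (p ^ γ) ^ (d - 1) = (p ^ (γ - e)) ^ (d - 1) * (p ^ e) ^ (d - 1) := by
      rw [← mul_pow, ← pow_add]; congr 2; omega
    rw [h3] at h1
    exact Nat.eq_of_mul_eq_mul_right (pow_pos (pow_pos hp.pos _) _) h1
  rw [← hWc]
  have hex : ∀ w : {j : Fin d // j ≠ i0} → ZMod (p ^ γ), ∃ r : ZMod (p ^ γ), w ∈ W →
      (r ^ k = n - ∑ j, w j ^ k ∧ R (z i0) r) := by
    intro w
    by_cases hw : w ∈ W
    · obtain ⟨r, hr⟩ := H (z i0) (n - ∑ j, w j ^ k) hi0 (by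
        rw [← castHom_eq_iff (pow_dvd_pow p heγ)] at hz ⊢
        rw [hW, mem_filter] at hw
        rw [map_sub, hz, map_sum, map_sum,
          Fintype.sum_eq_add_sum_subtype_ne (fun i => ZMod.castHom (pow_dvd_pow p heγ) (ZMod (p ^ e)) (z i ^ k)) i0]
        have h1 : ∑ j : {j : Fin d // j ≠ i0}, ZMod.castHom (pow_dvd_pow p heγ) (ZMod (p ^ e)) (w j ^ k) =
            ∑ j : {j : Fin d // j ≠ i0}, ZMod.castHom (pow_dvd_pow p heγ) (ZMod (p ^ e)) (z j.1 ^ k) := by
          apply sum_congr rfl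
          intro j _
          rw [map_pow, map_pow, hw.2 j]
        rw [h1, add_sub_cancel_right])
      exact ⟨r, fun _ => hr⟩
    · exact ⟨0, fun h => absurd h hw⟩
  choose r hr using hex
  apply card_le_card_of_injOn (fun w j => if h : j = i0 then r w else w ⟨j, h⟩)
  · intro w hw
    rw [mem_coe] at hw
    rw [mem_coe, mem_filter]
    obtain ⟨h1, h2⟩ := hr w hw
    have e0 : (if h : i0 = i0 then r w else w ⟨i0, h⟩) = r w := dif_pos rfl
    have ej : ∀ j : Fin d, ∀ h : j ≠ i0, (if h : j = i0 then r w else w ⟨j, h⟩) = w ⟨j, h⟩ :=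
      fun j h => dif_neg h
    refine ⟨mem_univ _, ?_, ?_, ?_⟩
    · rw [Fintype.sum_eq_add_sum_subtype_ne (fun j => (if h : j = i0 then r w else w ⟨j, h⟩) ^ k) i0]
      simp only [dif_pos]
      rw [h1]
      have h3 : ∑ j : {j : Fin d // j ≠ i0}, (if h : j.1 = i0 then r w else w ⟨j.1, h⟩) ^ k =
          ∑ j, w j ^ k := by
        apply sum_congr rfl
        intro j _
        rw [ej j.1 j.2]
      rw [h3, sub_add_cancel]
    · intro j hj
      simp only
      rw [ej j hj, ← castHom_eq_iff (pow_dvd_pow p heγ)]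
      rw [hW, mem_filter] at hw
      exact hw.2 ⟨j, hj⟩
    · simp only [dif_pos]
      exact h2
  · intro w _ w' _ h
    funext j
    have h1 := congrFun h j.1
    simp only at h1
    rwa [dif_neg j.2, dif_neg j.2] at h1

end Pool.Agent.V5helper16.CT
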