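import Mathlib
import Pool.Agent.V5helper16.CT.A3

/-! Consequences for the number of primitive solutions; recursion for the upper bound. -/

set_option autoImplicit false

open Finset

namespace Pool.Agent.V5helper16.CT

variable {p : ℕ} [Fact p.Prime]

lemma sum_castHom {A B k d : ℕ} (h : B ∣ A) (x : Fin d → ZMod A) :
    ∑ i, (ZMod.castHom h (ZMod B) (x i)) ^ k = ZMod.castHom h (ZMod B) (∑ i, x i ^ k) := by
  rw [map_sum]
  exact sum_congr rfl (fun i _ => (map_pow _ _ _).symm)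

lemma dvd_castHom_iff {e γ : ℕ} (he : 1 ≤ e) (h : e ≤ γ) (x : ZMod (p ^ γ)) :
    (p : ZMod (p ^ e)) ∣ ZMod.castHom (pow_dvd_pow p h) (ZMod (p ^ e)) x ↔ (p : ZMod (p ^ γ)) ∣ x := by
  have hd1 : p ∣ p ^ e := dvd_pow_self p (by omega)
  have hd2 : p ∣ p ^ γ := dvd_pow_self p (by omega)
  rw [← castHom_eq_zero_iff hd1, ← castHom_eq_zero_iff hd2]
  have : ZMod.castHom hd1 (ZMod p) (ZMod.castHom (pow_dvd_pow p h) (ZMod (p ^ e)) x) =
      ZMod.castHom hd2 (ZMod p) x := by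
    have h1 : (ZMod.castHom hd1 (ZMod p)).comp (ZMod.castHom (pow_dvd_pow p h) (ZMod (p ^ e))) =
        ZMod.castHom hd2 (ZMod p) := Subsingleton.elim _ _
    rw [← h1]; rfl
  rw [this]

lemma P_le_mul {γ v k d : ℕ} (hv : ¬ p ^ (v + 1) ∣ k) (hγ : v + 1 ≤ γ) (n : ZMod (p ^ γ)) :
    P p γ k d n ≤ P p (v + 1) k d (ZMod.castHom (pow_dvd_pow p hγ) (ZMod (p ^ (v + 1))) n) *
      (p ^ v * (p ^ (γ - (v + 1))) ^ (d - 1)) := by
  classical
  rw [P_eq, P_eq]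
  set T := univ.filter (fun z : Fin d → ZMod (p ^ (v + 1)) =>
      ∑ i, z i ^ k = ZMod.castHom (pow_dvd_pow p hγ) (ZMod (p ^ (v + 1))) n ∧
      ∃ i, ¬ (p : ZMod (p ^ (v + 1))) ∣ z i) with hT
  have hmap : ∀ x ∈ univ.filter (fun x : Fin d → ZMod (p ^ γ) => ∑ i, x i ^ k = n ∧
      ∃ i, ¬ (p : ZMod (p ^ γ)) ∣ x i),
      (fun i => ZMod.castHom (pow_dvd_pow p hγ) (ZMod (p ^ (v + 1))) (x i)) ∈ T := by
    intro x hx
    rw [mem_filter] at hx
    rw [hT, mem_filter]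
    refine ⟨mem_univ _, ?_, ?_⟩
    · rw [sum_castHom, hx.2.1]
    · obtain ⟨i, hi⟩ := hx.2.2
      exact ⟨i, fun hcon => hi ((dvd_castHom_iff (by omega) hγ (x i)).mp hcon)⟩
  rw [mul_comm]
  apply card_le_mul_card_image_of_maps_to hmap
  intro z hz
  rw [hT, mem_filter] at hz
  refine le_trans (card_le_card ?_) (fiber_upper hv hγ n z hz.2.2)
  intro x hx
  rw [mem_filter, mem_filter] at hx
  rw [mem_filter]
  exact ⟨mem_univ _, hx.1.2.1, fun i => congrFun hx.2 i⟩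

/-- crude upper bound for the number of primitive solutions -/
lemma P_le_crude {v k d : ℕ} (hd : 1 ≤ d) (hv : ¬ p ^ (v + 1) ∣ k) (γ : ℕ) (n : ZMod (p ^ γ)) :
    P p γ k d n ≤ p ^ (2 * v + 1) * (p ^ γ) ^ (d - 1) := by
  classical
  have hp : p.Prime := Fact.out
  have htriv : ∀ (e : ℕ) (m : ZMod (p ^ e)), P p e k d m ≤ (p ^ e) ^ d := by
    intro e m
    rw [P_eq]
    refine (card_le_univ _).trans (le_of_eq ?_)
    rw [Fintype.card_fun, Fintype.card_fin, ZMod.card]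
  obtain ⟨d', rfl⟩ : ∃ d', d = d' + 1 := ⟨d - 1, by omega⟩
  rw [Nat.add_sub_cancel]
  rcases Nat.lt_or_ge γ (v + 1) with h | h
  · refine (htriv γ n).trans ?_
    rw [pow_succ, mul_comm]
    exact Nat.mul_le_mul_right _ (Nat.pow_le_pow_right hp.pos (by omega))
  · refine (P_le_mul hv h n).trans ?_
    rw [Nat.add_sub_cancel]
    refine (Nat.mul_le_mul_right _ (htriv (v + 1) _)).trans (le_of_eq ?_)
    have h1 : p ^ γ = p ^ (v + 1) * p ^ (γ - (v + 1)) := by rw [← pow_add]; congr 1; omega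
    rw [h1, mul_pow, pow_succ (p ^ (v + 1)) d']
    ring

/-- exact upper bound for the number of primitive solutions when `p ∤ k` -/
lemma P_le {γ k d : ℕ} (hk : ¬ p ∣ k) (hγ : 1 ≤ γ) (n : ZMod (p ^ γ)) :
    P p γ k d n ≤ P p 1 k d (ZMod.castHom (pow_dvd_pow p hγ) (ZMod (p ^ 1)) n) *
      (p ^ (γ - 1)) ^ (d - 1) := by
  have h := P_le_mul (p := p) (v := 0) (k := k) (d := d) (by simpa using hk) hγ n
  simpa using h

/-- exact lower bound for the number of primitive solutions when `p ∤ k` -/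
lemma P_ge {γ k d : ℕ} (hk : ¬ p ∣ k) (hγ : 1 ≤ γ) (n : ZMod (p ^ γ)) :
    P p 1 k d (ZMod.castHom (pow_dvd_pow p hγ) (ZMod (p ^ 1)) n) *
      (p ^ (γ - 1)) ^ (d - 1) ≤ P p γ k d n := by
  classical
  have hp : p.Prime := Fact.out
  rw [P_eq, P_eq]
  set T := univ.filter (fun z : Fin d → ZMod (p ^ 1) =>
      ∑ i, z i ^ k = ZMod.castHom (pow_dvd_pow p hγ) (ZMod (p ^ 1)) n ∧
      ∃ i, ¬ (p : ZMod (p ^ 1)) ∣ z i) with hT
  set S := univ.filter (fun x : Fin d → ZMod (p ^ γ) => ∑ i, x i ^ k = n ∧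
      ∃ i, ¬ (p : ZMod (p ^ γ)) ∣ x i) with hS
  have hmap : ∀ x ∈ S, (fun i => ZMod.castHom (pow_dvd_pow p hγ) (ZMod (p ^ 1)) (x i)) ∈ T := by
    intro x hx
    rw [hS, mem_filter] at hx
    rw [hT, mem_filter]
    refine ⟨mem_univ _, ?_, ?_⟩
    · rw [sum_castHom, hx.2.1]
    · obtain ⟨i, hi⟩ := hx.2.2
      exact ⟨i, fun hcon => hi ((dvd_castHom_iff le_rfl hγ (x i)).mp hcon)⟩
  rw [card_eq_sum_card_fiberwise hmap]
  rw [← smul_eq_mul, ← sum_const]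
  apply sum_le_sum
  intro z hz
  rw [hT, mem_filter] at hz
  obtain ⟨_, hz1, i0, hi0⟩ := hz
  -- a lift of `z`
  have hlift : ∀ i, ∃ y : ZMod (p ^ γ), ZMod.castHom (pow_dvd_pow p hγ) (ZMod (p ^ 1)) y = z i :=
    fun i => ZMod.castHom_surjective (pow_dvd_pow p hγ) (z i)
  choose y hy using hlift
  have h1 := fiber_lower (p := p) (γ := γ) (e := 1) (k := k) (d := d) hγ
    (fun a r => (p : ZMod (p ^ γ)) ∣ r - a)
    (fun a t ha ht => TH854.KS.hensel hp hγ hk a t ((isUnit_iff hp hγ a).mpr ha) (by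
      rwa [pow_one] at ht))
    n y (by
      rw [← castHom_eq_iff (pow_dvd_pow p hγ), ← sum_castHom, ← hz1]
      exact sum_congr rfl (fun i _ => by rw [hy i])) i0
    (fun hcon => hi0 (by
      have := (dvd_castHom_iff le_rfl hγ (y i0)).mpr hcon
      rwa [hy i0] at this))
  refine h1.trans ?_
  rw [Nat.card_eq_fintype_card, Fintype.card_subtype]
  apply card_le_card
  intro x hx
  rw [mem_filter] at hx
  obtain ⟨_, hx1, hx2, hx3⟩ := hx
  have hx4 : ∀ j, ZMod.castHom (pow_dvd_pow p hγ) (ZMod (p ^ 1)) (x j) = z j := by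
    intro j
    rw [← hy j, castHom_eq_iff, pow_one]
    by_cases hj : j = i0
    · rw [hj]; exact hx3
    · have := hx2 j hj
      rwa [pow_one] at this
  rw [mem_filter, hS, mem_filter]
  refine ⟨⟨mem_univ _, hx1, i0, ?_⟩, funext hx4⟩
  intro hcon
  apply hi0
  rw [← hx4 i0]
  exact (dvd_castHom_iff le_rfl hγ (x i0)).mpr hcon

/-- crude lower bound from one primitive solution -/
lemma N_ge_crude {γ e k d : ℕ} (heγ : e ≤ γ)
    (H : ∀ a t : ZMod (p ^ γ), ¬ (p : ZMod (p ^ γ)) ∣ a → ((p ^ e : ℕ) : ZMod (p ^ γ)) ∣ t - a ^ k →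
      ∃ r, r ^ k = t)
    (n : ZMod (p ^ γ)) (z : Fin d → ZMod (p ^ γ))
    (hz : ((p ^ e : ℕ) : ZMod (p ^ γ)) ∣ n - ∑ i, z i ^ k) (i0 : Fin d)
    (hi0 : ¬ (p : ZMod (p ^ γ)) ∣ z i0) :
    (p ^ (γ - e)) ^ (d - 1) ≤ N (p ^ γ) k d n := by
  classical
  have h1 := fiber_lower (p := p) heγ (fun _ _ => True)
    (fun a t ha ht => by
      obtain ⟨r, hr⟩ := H a t ha ht
      exact ⟨r, hr, trivial⟩) n z hz i0 hi0
  refine h1.trans ?_
  rw [N_eq, Nat.card_eq_fintype_card, Fintype.card_subtype]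
  apply card_le_card
  intro x hx
  rw [mem_filter] at hx ⊢
  exact ⟨mem_univ _, hx.2.1⟩

/-- the recursion for the upper bound -/
lemma N_le {k d : ℕ} (hk : 1 ≤ k) (hd : k + 2 ≤ d) {B U : ℝ} (hU : 1 ≤ U)
    (hBU : B + U / (p : ℝ) ^ 2 ≤ U)
    (hB : ∀ (γ : ℕ) (n : ZMod (p ^ γ)), 1 ≤ γ → (P p γ k d n : ℝ) ≤ B * ((p : ℝ) ^ γ) ^ (d - 1))
    (γ : ℕ) (n : ZMod (p ^ γ)) :
    (N (p ^ γ) k d n : ℝ) ≤ U * ((p : ℝ) ^ γ) ^ (d - 1) := by
  have hp : p.Prime := Fact.out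
  have hpR : (0 : ℝ) < p := by exact_mod_cast hp.pos
  have hp1 : (1 : ℝ) ≤ p := by exact_mod_cast hp.one_lt.le
  induction γ using Nat.strong_induction_on with
  | _ γ ih =>
    rcases Nat.eq_zero_or_pos γ with h0 | hpos
    · subst h0
      have hN : N (p ^ 0) k d n = 1 := by
        have : ∀ (q : ℕ) (hq : q = 1) (m : ZMod q), N q k d m = 1 := by
          intro q hq m
          subst hq
          exact N_one k d m
        exact this _ (pow_zero p) n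
      rw [hN, pow_zero, one_pow, mul_one, Nat.cast_one]
      exact hU
    · have hU0 : 0 ≤ U := by linarith
      have hQ : (0 : ℝ) < ((p : ℝ) ^ γ) ^ (d - 1) := by positivity
      have key : (Z p γ k d n : ℝ) * (p : ℝ) ^ d ≤ U * ((p : ℝ) ^ k * ((p : ℝ) ^ γ) ^ (d - 1)) := by
        rcases Nat.lt_or_ge γ k with hlt | hge
        · have h1 := Z_le (p := p) hpos k d n
          have h2 : (Z p γ k d n : ℝ) * (p : ℝ) ^ d ≤ ((p : ℝ) ^ γ) ^ d := by exact_mod_cast h1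
          have h3 : ((p : ℝ) ^ γ) ^ d = (p : ℝ) ^ γ * ((p : ℝ) ^ γ) ^ (d - 1) := by
            rw [← pow_succ']; congr 1; omega
          rw [h3] at h2
          have h4 : (p : ℝ) ^ γ ≤ (p : ℝ) ^ k := pow_le_pow_right₀ hp1 hlt.le
          have h5 : (p : ℝ) ^ γ * ((p : ℝ) ^ γ) ^ (d - 1) ≤ (p : ℝ) ^ k * ((p : ℝ) ^ γ) ^ (d - 1) :=
            mul_le_mul_of_nonneg_right h4 hQ.le
          have h6 : 0 ≤ (p : ℝ) ^ k * ((p : ℝ) ^ γ) ^ (d - 1) := by positivity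
          nlinarith
        · by_cases hZ : Z p γ k d n = 0
          · rw [hZ, Nat.cast_zero, zero_mul]
            positivity
          · obtain ⟨m, rfl⟩ := Z_ne_zero hZ
            have h1 := Z_rec (p := p) hk hge d m
            have h2 := ih (γ - k) (by omega) (m : ZMod (p ^ (γ - k)))
            have h3 : (Z p γ k d (((p : ℤ) ^ k * m : ℤ) : ZMod (p ^ γ)) : ℝ) * (p : ℝ) ^ d =
                ((p : ℝ) ^ k) ^ d * (N (p ^ (γ - k)) k d (m : ZMod (p ^ (γ - k))) : ℝ) := by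
              exact_mod_cast h1
            rw [h3]
            have h4 : (p : ℝ) ^ k * ((p : ℝ) ^ γ) ^ (d - 1) = ((p : ℝ) ^ k) ^ d * ((p : ℝ) ^ (γ - k)) ^ (d - 1) := by
              have e1 : (p : ℝ) ^ γ = (p : ℝ) ^ k * (p : ℝ) ^ (γ - k) := by
                rw [← pow_add]; congr 1; omega
              have e2 : ((p : ℝ) ^ k) ^ d = (p : ℝ) ^ k * ((p : ℝ) ^ k) ^ (d - 1) := by
                rw [← pow_succ']; congr 1; omega
              rw [e1, mul_pow, e2]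
              ring
            rw [h4]
            have h5 : (0 : ℝ) ≤ ((p : ℝ) ^ k) ^ d := by positivity
            calc ((p : ℝ) ^ k) ^ d * (N (p ^ (γ - k)) k d (m : ZMod (p ^ (γ - k))) : ℝ)
                ≤ ((p : ℝ) ^ k) ^ d * (U * ((p : ℝ) ^ (γ - k)) ^ (d - 1)) :=
                  mul_le_mul_of_nonneg_left h2 h5
              _ = _ := by ring
      have hZ : (Z p γ k d n : ℝ) ≤ U / (p : ℝ) ^ 2 * ((p : ℝ) ^ γ) ^ (d - 1) := by
        have e1 : (p : ℝ) ^ d = (p : ℝ) ^ (d - (k + 2)) * ((p : ℝ) ^ k * (p : ℝ) ^ 2) := by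
          rw [← pow_add, ← pow_add]; congr 1; omega
        have e2 : (1 : ℝ) ≤ (p : ℝ) ^ (d - (k + 2)) := one_le_pow₀ hp1
        have e3 : (p : ℝ) ^ k * (p : ℝ) ^ 2 ≤ (p : ℝ) ^ d := by
          rw [e1]
          have : 0 < (p : ℝ) ^ k * (p : ℝ) ^ 2 := by positivity
          nlinarith
        have e4 : (Z p γ k d n : ℝ) * ((p : ℝ) ^ k * (p : ℝ) ^ 2) ≤ U * ((p : ℝ) ^ k * ((p : ℝ) ^ γ) ^ (d - 1)) :=
          (mul_le_mul_of_nonneg_left e3 (by positivity)).trans key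
        have e5 : (0 : ℝ) < (p : ℝ) ^ k := by positivity
        have e6 : ((Z p γ k d n : ℝ) * (p : ℝ) ^ 2) * (p : ℝ) ^ k ≤ (U * ((p : ℝ) ^ γ) ^ (d - 1)) * (p : ℝ) ^ k := by
          nlinarith
        have e7 := le_of_mul_le_mul_right e6 e5
        rw [div_mul_eq_mul_div, le_div_iff₀ (by positivity)]
        exact e7
      rw [N_eq_add]
      push_cast
      have h8 := hB γ n hpos
      calc (Z p γ k d n : ℝ) + (P p γ k d n : ℝ)
          ≤ U / (p : ℝ) ^ 2 * ((p : ℝ) ^ γ) ^ (d - 1) + B * ((p : ℝ) ^ γ) ^ (d - 1) := add_le_add hZ h8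
        _ = (B + U / (p : ℝ) ^ 2) * ((p : ℝ) ^ γ) ^ (d - 1) := by ring
        _ ≤ U * ((p : ℝ) ^ γ) ^ (d - 1) := mul_le_mul_of_nonneg_right hBU hQ.le

end Pool.Agent.V5helper16.CT
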