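import Mathlib
import Pool.Agent.V5helper16.CT.A4

/-! Large primes. -/

set_option autoImplicit false

open Finset

namespace Pool.Agent.V5helper16.CT

variable {p : ℕ} [Fact p.Prime]

open TH854.KS in
lemma sum_GS_pow' (k d : ℕ) (n : ZMod p) :
    ∑ t : ZMod p, GS p k t ^ d * ψ p (-(t * n)) = (p : ℂ) * N p k d n := by
  classical
  have h1 : ∀ t : ZMod p, GS p k t ^ d * ψ p (-(t * n)) =
      ∑ x : Fin d → ZMod p, ψ p (t * (∑ i, x i ^ k - n)) := by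
    intro t
    unfold GS
    rw [Fintype.sum_pow, sum_mul]
    apply sum_congr rfl
    intro x _
    rw [mul_sub, sub_eq_add_neg, AddChar.map_add_eq_mul, mul_sum, char_sum]
  simp_rw [h1]
  rw [sum_comm]
  have h2 : ∀ x : Fin d → ZMod p, ∑ t : ZMod p, ψ p (t * (∑ i, x i ^ k - n)) =
      if ∑ i, x i ^ k = n then (p : ℂ) else 0 := by
    intro x
    rw [AddChar.sum_mulShift _ ψ_prim]
    by_cases h : ∑ i, x i ^ k = n
    · rw [if_pos (by rw [h, sub_self]), if_pos h, ZMod.card]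
    · rw [if_neg (by rwa [sub_eq_zero]), if_neg h]
      simp
  simp_rw [h2]
  rw [← sum_filter, sum_const, nsmul_eq_mul, mul_comm]
  congr 2
  exact (N_eq (q := p) k d n).symm

open TH854.KS in
lemma N_prime {k : ℕ} (hk : 0 < k) {d : ℕ} (hd : 1 ≤ d) (n : ZMod p) :
    |(N p k d n : ℝ) - (p : ℝ) ^ (d - 1)| ≤ (k * √p) ^ d := by
  classical
  have hp : p.Prime := Fact.out
  have hp0 : (0 : ℝ) < p := by exact_mod_cast hp.pos
  have h := sum_GS_pow' (p := p) k d n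
  rw [← add_sum_erase univ _ (mem_univ (0 : ZMod p)), GS_zero] at h
  rw [zero_mul, neg_zero, AddChar.map_zero_eq_one, mul_one] at h
  have h1 : ‖∑ t ∈ univ.erase (0 : ZMod p), GS p k t ^ d * ψ p (-(t * n))‖ ≤ (p - 1) * (k * √p) ^ d := by
    refine (norm_sum_le _ _).trans ?_
    have : ∑ t ∈ univ.erase (0 : ZMod p), ‖GS p k t ^ d * ψ p (-(t * n))‖ ≤
        ∑ _t ∈ univ.erase (0 : ZMod p), (k * √p) ^ d := by
      apply sum_le_sum
      intro t ht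
      rw [norm_mul, AddChar.norm_apply, mul_one, norm_pow]
      exact pow_le_pow_left₀ (norm_nonneg _) (GS_norm hk (ne_of_mem_erase ht)) d
    refine this.trans (le_of_eq ?_)
    rw [sum_const, card_erase_of_mem (mem_univ _), card_univ, ZMod.card, nsmul_eq_mul,
      Nat.cast_sub hp.one_lt.le, Nat.cast_one]
  have h2 : ((p : ℝ) * ((N p k d n : ℝ) - (p : ℝ) ^ (d - 1)) : ℂ) =
      ∑ t ∈ univ.erase (0 : ZMod p), GS p k t ^ d * ψ p (-(t * n)) := by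
    have e : ((p : ℝ) : ℂ) * ((p : ℝ) : ℂ) ^ (d - 1) = ((p : ℕ) : ℂ) ^ d := by
      rw [← pow_succ', Nat.sub_add_cancel hd]
      norm_cast
    push_cast at e ⊢
    linear_combination (-1 : ℂ) * h - e
  have h3 : ‖((p : ℝ) * ((N p k d n : ℝ) - (p : ℝ) ^ (d - 1)) : ℂ)‖ =
      p * |(N p k d n : ℝ) - (p : ℝ) ^ (d - 1)| := by
    have : ((p : ℝ) * ((N p k d n : ℝ) - (p : ℝ) ^ (d - 1)) : ℂ) =
      (((p : ℝ) * ((N p k d n : ℝ) - (p : ℝ) ^ (d - 1)) : ℝ) : ℂ) := by push_cast; ring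
    rw [this, Complex.norm_real, Real.norm_eq_abs, abs_mul, abs_of_pos hp0]
  rw [← h2, h3] at h1
  have h4 : (0 : ℝ) ≤ (k * √p) ^ d := by positivity
  have h5 : (p : ℝ) * |(N p k d n : ℝ) - (p : ℝ) ^ (d - 1)| ≤ p * (k * √p) ^ d := by nlinarith
  exact le_of_mul_le_mul_left h5 hp0

/-- two-sided bounds with the same constant `exp (±b)` for all powers of `p` -/
def Bd (p k d : ℕ) (b : ℝ) : Prop :=
  ∀ (γ : ℕ) (n : ZMod (p ^ γ)), N (p ^ γ) k d n = 0 ∨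
    (Real.exp (-b) * ((p : ℝ) ^ γ) ^ (d - 1) ≤ (N (p ^ γ) k d n : ℝ) ∧
      (N (p ^ γ) k d n : ℝ) ≤ Real.exp b * ((p : ℝ) ^ γ) ^ (d - 1))

lemma P_one_bounds {k : ℕ} (hk : 0 < k) {d : ℕ} (hd : 5 ≤ d) (n : ZMod (p ^ 1)) :
    (P p 1 k d n : ℝ) ≤ (1 + (k : ℝ) ^ d / √p ^ 3) * (p : ℝ) ^ (d - 1) ∧
    (1 - ((k : ℝ) ^ d + 1) / √p ^ 3) * (p : ℝ) ^ (d - 1) ≤ (P p 1 k d n : ℝ) := by
  have hp : p.Prime := Fact.out
  have hpR : (0 : ℝ) < p := by exact_mod_cast hp.pos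
  have hp1 : (1 : ℝ) ≤ p := by exact_mod_cast hp.one_lt.le
  have h1 : ∀ (q : ℕ) (hq : q = p) (m : ZMod q), |(N q k d m : ℝ) - (p : ℝ) ^ (d - 1)| ≤ (k * √p) ^ d := by
    intro q hq m
    subst hq
    exact N_prime hk (by omega) m
  have h2 := h1 (p ^ 1) (pow_one p) n
  have h3 := N_eq_add (p := p) 1 k d n
  have h4 : Z p 1 k d n ≤ 1 := by
    have h5 := Z_le (p := p) (le_refl 1) k d n
    rw [pow_one] at h5
    have h6 : 0 < p ^ d := pow_pos hp.pos d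
    nlinarith
  have h4R : (Z p 1 k d n : ℝ) ≤ 1 := by exact_mod_cast h4
  have h4R0 : (0 : ℝ) ≤ (Z p 1 k d n : ℝ) := Nat.cast_nonneg _
  have h3R : (N (p ^ 1) k d n : ℝ) = (Z p 1 k d n : ℝ) + (P p 1 k d n : ℝ) := by exact_mod_cast h3
  set s : ℝ := √p with hs
  have hs1 : 1 ≤ s := by rw [hs]; exact Real.one_le_sqrt.mpr hp1
  have hs2 : s ^ 2 = p := Real.sq_sqrt hpR.le
  have h7 : s ^ d * s ^ 3 ≤ (p : ℝ) ^ (d - 1) := by
    rw [← hs2, ← pow_mul, ← pow_add]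
    exact pow_le_pow_right₀ hs1 (by omega)
  have hs3 : 0 < s ^ 3 := by positivity
  have h8 : (k * s) ^ d ≤ (k : ℝ) ^ d / s ^ 3 * (p : ℝ) ^ (d - 1) := by
    rw [mul_pow, div_mul_eq_mul_div, le_div_iff₀ hs3, mul_assoc]
    exact mul_le_mul_of_nonneg_left h7 (by positivity)
  have h9 : (1 : ℝ) ≤ 1 / s ^ 3 * (p : ℝ) ^ (d - 1) := by
    rw [div_mul_eq_mul_div, le_div_iff₀ hs3, one_mul, one_mul]
    have : (1 : ℝ) ≤ s ^ d := one_le_pow₀ hs1
    nlinarith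
  obtain ⟨ha, hb⟩ := abs_le.mp h2
  constructor
  · have e : (1 + (k : ℝ) ^ d / s ^ 3) * (p : ℝ) ^ (d - 1) =
        (p : ℝ) ^ (d - 1) + (k : ℝ) ^ d / s ^ 3 * (p : ℝ) ^ (d - 1) := by ring
    rw [e]
    linarith
  · have e : (1 - ((k : ℝ) ^ d + 1) / s ^ 3) * (p : ℝ) ^ (d - 1) =
        (p : ℝ) ^ (d - 1) - (k : ℝ) ^ d / s ^ 3 * (p : ℝ) ^ (d - 1) - 1 / s ^ 3 * (p : ℝ) ^ (d - 1) := by ring
    rw [e]
    linarith

/-- the large primes -/
lemma Bd_large {k d : ℕ} (hk : 3 ≤ k) (hd : k + 2 ≤ d) (hpk : k < p)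
    (hbig : ((k : ℝ) ^ d + 2) / √p ^ 3 ≤ 1 / 2) :
    Bd p k d (2 * (((k : ℝ) ^ d + 2) / √p ^ 3)) := by
  have hp : p.Prime := Fact.out
  have hpR : (0 : ℝ) < p := by exact_mod_cast hp.pos
  have hp1 : (1 : ℝ) ≤ p := by exact_mod_cast hp.one_lt.le
  have hnd : ¬ p ∣ k := fun h => absurd (Nat.le_of_dvd (by omega) h) (by omega)
  set s : ℝ := √p with hs
  have hs1 : 1 ≤ s := by rw [hs]; exact Real.one_le_sqrt.mpr hp1
  have hs2 : s ^ 2 = p := Real.sq_sqrt hpR.le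
  have hs3 : 0 < s ^ 3 := by positivity
  set a : ℝ := ((k : ℝ) ^ d + 2) / s ^ 3 with ha
  have ha0 : 0 ≤ a := by positivity
  have hpow : ∀ γ : ℕ, 1 ≤ γ → (p : ℝ) ^ (d - 1) * (((p ^ (γ - 1) : ℕ) : ℝ)) ^ (d - 1) =
      ((p : ℝ) ^ γ) ^ (d - 1) := by
    intro γ hγ
    push_cast
    rw [← mul_pow, ← pow_succ', Nat.sub_add_cancel hγ]
  have hub : ∀ (γ : ℕ) (n : ZMod (p ^ γ)), 1 ≤ γ →
      (P p γ k d n : ℝ) ≤ (1 + (k : ℝ) ^ d / s ^ 3) * ((p : ℝ) ^ γ) ^ (d - 1) := by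
    intro γ n hγ
    have h1 := P_le (p := p) (d := d) hnd hγ n
    have h2 := (P_one_bounds (p := p) (k := k) (by omega) (d := d) (by omega)
      (ZMod.castHom (pow_dvd_pow p hγ) (ZMod (p ^ 1)) n)).1
    have h3 : (P p γ k d n : ℝ) ≤ (P p 1 k d (ZMod.castHom (pow_dvd_pow p hγ) (ZMod (p ^ 1)) n) : ℝ) *
      (((p ^ (γ - 1) : ℕ) : ℝ)) ^ (d - 1) := by exact_mod_cast h1
    refine h3.trans ?_
    rw [← hpow γ hγ, ← mul_assoc]
    exact mul_le_mul_of_nonneg_right h2 (by positivity)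
  have hlb : ∀ (γ : ℕ) (n : ZMod (p ^ γ)), 1 ≤ γ →
      (1 - ((k : ℝ) ^ d + 1) / s ^ 3) * ((p : ℝ) ^ γ) ^ (d - 1) ≤ (P p γ k d n : ℝ) := by
    intro γ n hγ
    have h1 := P_ge (p := p) (d := d) hnd hγ n
    have h2 := (P_one_bounds (p := p) (k := k) (by omega) (d := d) (by omega)
      (ZMod.castHom (pow_dvd_pow p hγ) (ZMod (p ^ 1)) n)).2
    have h3 : (P p 1 k d (ZMod.castHom (pow_dvd_pow p hγ) (ZMod (p ^ 1)) n) : ℝ) *
      (((p ^ (γ - 1) : ℕ) : ℝ)) ^ (d - 1) ≤ (P p γ k d n : ℝ) := by exact_mod_cast h1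
    refine le_trans ?_ h3
    rw [← hpow γ hγ, ← mul_assoc]
    exact mul_le_mul_of_nonneg_right h2 (by positivity)
  have hBU : (1 + (k : ℝ) ^ d / s ^ 3) + (1 + a) / (p : ℝ) ^ 2 ≤ 1 + a := by
    have e1 : a = (k : ℝ) ^ d / s ^ 3 + 2 / s ^ 3 := by rw [ha]; ring
    have e2 : (1 + a) / (p : ℝ) ^ 2 ≤ 2 / s ^ 3 := by
      apply div_le_div₀ (by norm_num) (by linarith) hs3
      rw [← hs2, ← pow_mul]
      exact pow_le_pow_right₀ hs1 (by norm_num)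
    rw [e1] at e2 ⊢
    linarith
  intro γ n
  right
  have hQ : (0 : ℝ) < ((p : ℝ) ^ γ) ^ (d - 1) := by positivity
  constructor
  · rcases Nat.eq_zero_or_pos γ with h0 | hpos
    · subst h0
      have hN : N (p ^ 0) k d n = 1 := by
        have : ∀ (q : ℕ) (hq : q = 1) (m : ZMod q), N q k d m = 1 := by
          intro q hq m
          subst hq
          exact N_one k d m
        exact this _ (pow_zero p) n
      rw [hN, pow_zero, one_pow, mul_one, Nat.cast_one]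
      rw [Real.exp_le_one_iff]
      linarith
    · have h1 := hlb γ n hpos
      have h2 : Real.exp (-(2 * a)) ≤ 1 - ((k : ℝ) ^ d + 1) / s ^ 3 := by
        have e1 : a = ((k : ℝ) ^ d + 1) / s ^ 3 + 1 / s ^ 3 := by rw [ha]; ring
        have e2 : 0 < 1 / s ^ 3 := by positivity
        have e3 : 1 + 2 * a ≤ Real.exp (2 * a) := by
          have := Real.add_one_le_exp (2 * a)
          linarith
        have e4 : 0 < 1 + 2 * a := by linarith
        have e5 : Real.exp (-(2 * a)) ≤ 1 - a := by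
          rw [Real.exp_neg, inv_le_comm₀ (Real.exp_pos _) (by linarith)]
          refine le_trans ?_ e3
          rw [inv_le_iff_one_le_mul₀ (by linarith)]
          nlinarith
        linarith
      have h3 : (P p γ k d n : ℝ) ≤ (N (p ^ γ) k d n : ℝ) := by
        rw [N_eq_add]; push_cast
        have : (0 : ℝ) ≤ (Z p γ k d n : ℝ) := Nat.cast_nonneg _
        linarith
      exact ((mul_le_mul_of_nonneg_right h2 hQ.le).trans h1).trans h3
  · refine (N_le (p := p) (k := k) (d := d) (by omega) hd (B := 1 + (k : ℝ) ^ d / s ^ 3) (U := 1 + a)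
      (by linarith) hBU hub γ n).trans ?_
    apply mul_le_mul_of_nonneg_right _ hQ.le
    have := Real.add_one_le_exp (2 * a)
    linarith

end Pool.Agent.V5helper16.CT
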