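import Mathlib
import Pool.Agent.V5helper16.CT.A5

/-! Bounds at every prime with a primitive zero. -/

set_option autoImplicit false

open Finset

namespace Pool.Agent.V5helper16.CT

variable {p : ℕ} [Fact p.Prime]

/-- Hensel's lemma for `k`-th powers -/
lemma hensel_gen {γ v k : ℕ} (hv : ¬ p ^ (v + 1) ∣ k) (hγ : 2 * v + 1 ≤ γ) (a t : ZMod (p ^ γ))
    (ha : ¬ (p : ZMod (p ^ γ)) ∣ a) (ht : ((p ^ (2 * v + 1) : ℕ) : ZMod (p ^ γ)) ∣ t - a ^ k) :
    ∃ r, r ^ k = t := by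
  have hp : p.Prime := Fact.out
  have hp1 : (1 : ℝ) < p := by exact_mod_cast hp.one_lt
  have hp0 : (0 : ℝ) < p := by linarith
  -- integers
  have h1 : ((p : ℤ) ^ (2 * v + 1)) ∣ ((a.val : ℤ) ^ k - (t.val : ℤ)) := by
    rw [← castHom_eq_iff (pow_dvd_pow p hγ)] at ht
    have e1 : ZMod.castHom (pow_dvd_pow p hγ) (ZMod (p ^ (2 * v + 1))) t = ((t.val : ℕ) : ZMod (p ^ (2 * v + 1))) := by
      conv_lhs => rw [← ZMod.natCast_zmod_val t]
      rw [map_natCast]
    have e2 : ZMod.castHom (pow_dvd_pow p hγ) (ZMod (p ^ (2 * v + 1))) (a ^ k) =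
        ((a.val : ℕ) : ZMod (p ^ (2 * v + 1))) ^ k := by
      rw [map_pow]
      conv_lhs => rw [← ZMod.natCast_zmod_val a]
      rw [map_natCast]
    rw [e1, e2] at ht
    have h2 : (((a.val : ℤ) ^ k - (t.val : ℤ) : ℤ) : ZMod (p ^ (2 * v + 1))) = 0 := by
      push_cast
      rw [ht, sub_self]
    rw [ZMod.intCast_zmod_eq_zero_iff_dvd] at h2
    exact_mod_cast h2
  set A : ℤ_[p] := ((a.val : ℤ) : ℤ_[p]) with hA
  set T : ℤ_[p] := ((t.val : ℤ) : ℤ_[p]) with hT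
  have hAn : ‖A‖ = 1 := by
    have h3 : ¬ ‖A‖ < 1 := by
      rw [hA, PadicInt.norm_int_lt_one_iff_dvd]
      intro hcon
      apply ha
      have h4 : p ∣ a.val := by exact_mod_cast hcon
      obtain ⟨c, hc⟩ := h4
      refine ⟨(c : ZMod (p ^ γ)), ?_⟩
      rw [← ZMod.natCast_zmod_val a, hc]
      push_cast
      rfl
    exact le_antisymm (PadicInt.norm_le_one _) (not_lt.1 h3)
  have hkn : (p : ℝ) ^ (-(v : ℤ)) ≤ ‖((k : ℕ) : ℤ_[p])‖ := by
    by_contra hcon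
    push Not at hcon
    have h3 : ‖((k : ℕ) : ℤ_[p])‖ ≤ (p : ℝ) ^ (-((v + 1 : ℕ) : ℤ)) := by
      rw [PadicInt.norm_le_pow_iff_norm_lt_pow_add_one]
      have : (-((v + 1 : ℕ) : ℤ) + 1) = -(v : ℤ) := by push_cast; ring
      rw [this]
      exact hcon
    have h4 : (((k : ℕ) : ℤ) : ℤ_[p]) = ((k : ℕ) : ℤ_[p]) := by norm_cast
    rw [← h4, PadicInt.norm_int_le_pow_iff_dvd] at h3
    exact hv (by exact_mod_cast h3)
  set F : Polynomial ℤ_[p] := Polynomial.X ^ k - Polynomial.C T with hF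
  have hk0 : k ≠ 0 := by rintro rfl; exact hv (dvd_zero _)
  have hev : ∀ z : ℤ_[p], F.aeval z = z ^ k - T := by
    intro z
    simp [hF]
  have hder : F.derivative.aeval A = (k : ℤ_[p]) * A ^ (k - 1) := by
    simp [hF, Polynomial.derivative_X_pow]
  have hnorm : ‖F.aeval A‖ < ‖F.derivative.aeval A‖ ^ 2 := by
    rw [hev, hder, norm_mul, norm_pow, hAn, one_pow, mul_one]
    have h3 : ‖A ^ k - T‖ ≤ (p : ℝ) ^ (-((2 * v + 1 : ℕ) : ℤ)) := by
      have h4 : A ^ k - T = (((a.val : ℤ) ^ k - (t.val : ℤ) : ℤ) : ℤ_[p]) := by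
        rw [hA, hT]; push_cast; rfl
      rw [h4, PadicInt.norm_int_le_pow_iff_dvd]
      exact_mod_cast h1
    refine h3.trans_lt ?_
    have h5 : ((p : ℝ) ^ (-(v : ℤ))) ^ 2 ≤ ‖((k : ℕ) : ℤ_[p])‖ ^ 2 :=
      pow_le_pow_left₀ (by positivity) hkn 2
    refine lt_of_lt_of_le ?_ h5
    rw [← zpow_natCast, ← zpow_mul]
    apply zpow_lt_zpow_right₀ hp1
    push_cast
    omega
  obtain ⟨z, hz, _⟩ := hensels_lemma hnorm
  rw [hev, sub_eq_zero] at hz
  refine ⟨PadicInt.toZModPow γ z, ?_⟩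
  rw [← map_pow, hz, hT, map_intCast]
  push_cast
  exact ZMod.natCast_zmod_val t

omit [Fact p.Prime] in
lemma N_zero_pow (k d : ℕ) (n : ZMod (p ^ 0)) : N (p ^ 0) k d n = 1 := by
  have : ∀ (q : ℕ) (hq : q = 1) (m : ZMod q), N q k d m = 1 := by
    intro q hq m
    subst hq
    exact N_one k d m
  exact this _ (pow_zero p) n

/-- a lower bound as soon as there is one primitive solution modulo `p ^ (2v+1)` -/
lemma lower_of_prim {v k d : ℕ} (hv : ¬ p ^ (v + 1) ∣ k) (γ : ℕ) (n : ZMod (p ^ γ))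
    (hN : N (p ^ γ) k d n ≠ 0)
    (h : 2 * v + 1 ≤ γ → ∃ z : Fin d → ZMod (p ^ γ),
      ((p ^ (2 * v + 1) : ℕ) : ZMod (p ^ γ)) ∣ n - ∑ i, z i ^ k ∧ ∃ i, ¬ (p : ZMod (p ^ γ)) ∣ z i) :
    (1 / ((p : ℝ) ^ (2 * v + 1)) ^ (d - 1)) * ((p : ℝ) ^ γ) ^ (d - 1) ≤ (N (p ^ γ) k d n : ℝ) := by
  have hp : p.Prime := Fact.out
  have hp1 : (1 : ℝ) < p := by exact_mod_cast hp.one_lt
  have hp0 : (0 : ℝ) < p := by linarith
  have hE : (0 : ℝ) < ((p : ℝ) ^ (2 * v + 1)) ^ (d - 1) := by positivity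
  rw [div_mul_eq_mul_div, one_mul, div_le_iff₀ hE]
  rcases Nat.lt_or_ge γ (2 * v + 1) with hlt | hge
  · have h1 : (1 : ℝ) ≤ (N (p ^ γ) k d n : ℝ) := by exact_mod_cast Nat.one_le_iff_ne_zero.mpr hN
    have h2 : ((p : ℝ) ^ γ) ^ (d - 1) ≤ ((p : ℝ) ^ (2 * v + 1)) ^ (d - 1) :=
      pow_le_pow_left₀ (by positivity) (pow_le_pow_right₀ hp1.le hlt.le) _
    nlinarith
  · obtain ⟨z, hz, i0, hi0⟩ := h hge
    have h1 := N_ge_crude (p := p) (d := d) hge (fun a t ha ht => hensel_gen hv hge a t ha ht) n z hz i0 hi0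
    have h2 : ((p : ℝ) ^ (γ - (2 * v + 1))) ^ (d - 1) ≤ (N (p ^ γ) k d n : ℝ) := by exact_mod_cast h1
    have h3 : ((p : ℝ) ^ γ) ^ (d - 1) = ((p : ℝ) ^ (γ - (2 * v + 1))) ^ (d - 1) * ((p : ℝ) ^ (2 * v + 1)) ^ (d - 1) := by
      rw [← mul_pow, ← pow_add]; congr 2; omega
    rw [h3]
    exact mul_le_mul_of_nonneg_right h2 hE.le

/-- lower bounds for `n` not divisible by a high power of `p` -/
lemma lower_rec {v k d : ℕ} (hk : 1 ≤ k) (hd : 1 ≤ d) (hv : ¬ p ^ (v + 1) ∣ k) (m : ℕ) :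
    ∀ (γ : ℕ) (n : ZMod (p ^ γ)), N (p ^ γ) k d n ≠ 0 → ¬ ((p ^ (m * k) : ℕ) : ZMod (p ^ γ)) ∣ n →
    (1 / ((p : ℝ) ^ (2 * v + 1)) ^ (d - 1)) / ((p : ℝ) ^ d) ^ m * ((p : ℝ) ^ γ) ^ (d - 1) ≤
      (N (p ^ γ) k d n : ℝ) := by
  classical
  have hp : p.Prime := Fact.out
  have hp1 : (1 : ℝ) < p := by exact_mod_cast hp.one_lt
  have hp0 : (0 : ℝ) < p := by linarith
  set c0 : ℝ := 1 / ((p : ℝ) ^ (2 * v + 1)) ^ (d - 1) with hc0
  have hc0p : 0 < c0 := by positivity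
  induction m with
  | zero =>
    intro γ n _ h
    exact absurd (by simp) h
  | succ m ih =>
    intro γ n hN hnd
    by_cases hP : P p γ k d n = 0
    · -- only solutions divisible by `p`
      have hZ : Z p γ k d n ≠ 0 := by
        intro hZ
        exact hN (by rw [N_eq_add, hP, hZ])
      obtain ⟨t, rfl⟩ := Z_ne_zero hZ
      rcases Nat.lt_or_ge γ k with hlt | hge
      · exfalso
        apply hnd
        have h0 : (p : ZMod (p ^ γ)) ^ k = 0 := by
          have h1 : ((p ^ γ : ℕ) : ZMod (p ^ γ)) = 0 := ZMod.natCast_self _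
          have h2 : (p : ZMod (p ^ γ)) ^ k = (p : ZMod (p ^ γ)) ^ γ * (p : ZMod (p ^ γ)) ^ (k - γ) := by
            rw [← pow_add]; congr 1; omega
          rw [h2, ← Nat.cast_pow, h1, zero_mul]
        push_cast
        rw [h0, zero_mul]
        exact dvd_zero _
      · have h1 := Z_rec (p := p) hk hge d t
        have h2 : N (p ^ (γ - k)) k d (t : ZMod (p ^ (γ - k))) ≠ 0 := by
          intro h3
          rw [h3, mul_zero] at h1
          rcases Nat.mul_eq_zero.mp h1 with h4 | h4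
          · exact hZ h4
          · exact absurd h4 (pow_ne_zero _ hp.ne_zero)
        have h3 : ¬ ((p ^ (m * k) : ℕ) : ZMod (p ^ (γ - k))) ∣ (t : ZMod (p ^ (γ - k))) := by
          rintro ⟨c, hc⟩
          apply hnd
          have h4 := (mul_eq_zero_iff' (p := p) hge ((t : ZMod (p ^ γ)) -
            ((p ^ (m * k) : ℕ) : ZMod (p ^ γ)) * ((c.val : ℕ) : ZMod (p ^ γ)))).mpr (by
              rw [map_sub, map_mul, map_intCast, map_natCast, map_natCast, ZMod.natCast_zmod_val, hc, sub_self])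
          refine ⟨((c.val : ℕ) : ZMod (p ^ γ)), ?_⟩
          rw [mul_sub, sub_eq_zero] at h4
          push_cast at h4 ⊢
          rw [h4]
          ring
        have h5 := ih (γ - k) (t : ZMod (p ^ (γ - k))) h2 h3
        have h6 : (Z p γ k d (((p : ℤ) ^ k * t : ℤ) : ZMod (p ^ γ)) : ℝ) * (p : ℝ) ^ d =
            ((p : ℝ) ^ k) ^ d * (N (p ^ (γ - k)) k d (t : ZMod (p ^ (γ - k))) : ℝ) := by
          exact_mod_cast h1
        have h7 : (Z p γ k d (((p : ℤ) ^ k * t : ℤ) : ZMod (p ^ γ)) : ℝ) ≤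
            (N (p ^ γ) k d (((p : ℤ) ^ k * t : ℤ) : ZMod (p ^ γ)) : ℝ) := by
          rw [N_eq_add]; push_cast
          have : (0 : ℝ) ≤ (P p γ k d (((p : ZMod (p ^ γ)) ^ k * (t : ZMod (p ^ γ)))) : ℝ) := Nat.cast_nonneg _
          linarith
        refine le_trans ?_ h7
        have hpd : (0 : ℝ) < (p : ℝ) ^ d := by positivity
        have h8 : ((p : ℝ) ^ k) ^ d * (c0 / ((p : ℝ) ^ d) ^ m * ((p : ℝ) ^ (γ - k)) ^ (d - 1)) ≤
            (Z p γ k d (((p : ℤ) ^ k * t : ℤ) : ZMod (p ^ γ)) : ℝ) * (p : ℝ) ^ d := by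
          rw [h6]
          exact mul_le_mul_of_nonneg_left h5 (by positivity)
        have h9 : ((p : ℝ) ^ γ) ^ (d - 1) ≤ ((p : ℝ) ^ k) ^ d * ((p : ℝ) ^ (γ - k)) ^ (d - 1) := by
          have e1 : (p : ℝ) ^ γ = (p : ℝ) ^ k * (p : ℝ) ^ (γ - k) := by
            rw [← pow_add]; congr 1; omega
          have e2 : ((p : ℝ) ^ k) ^ d = (p : ℝ) ^ k * ((p : ℝ) ^ k) ^ (d - 1) := by
            rw [← pow_succ']; congr 1; omega
          rw [e1, mul_pow, e2]
          have e3 : (1 : ℝ) ≤ (p : ℝ) ^ k := one_le_pow₀ hp1.le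
          have e4 : (0 : ℝ) ≤ ((p : ℝ) ^ k) ^ (d - 1) * ((p : ℝ) ^ (γ - k)) ^ (d - 1) := by positivity
          nlinarith
        have h10 : 0 < c0 / ((p : ℝ) ^ d) ^ m := by positivity
        have h11 : c0 / ((p : ℝ) ^ d) ^ m * ((p : ℝ) ^ γ) ^ (d - 1) ≤
            (Z p γ k d (((p : ℤ) ^ k * t : ℤ) : ZMod (p ^ γ)) : ℝ) * (p : ℝ) ^ d := by
          refine le_trans ?_ h8
          have := mul_le_mul_of_nonneg_left h9 h10.le
          linarith
        have h12 : c0 / ((p : ℝ) ^ d) ^ (m + 1) * ((p : ℝ) ^ γ) ^ (d - 1) =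
            (c0 / ((p : ℝ) ^ d) ^ m * ((p : ℝ) ^ γ) ^ (d - 1)) / (p : ℝ) ^ d := by
          rw [pow_succ]
          field_simp
        rw [h12, div_le_iff₀ hpd]
        exact h11
    · -- a primitive solution
      rw [P_eq] at hP
      obtain ⟨x, hx⟩ := card_pos.mp (Nat.pos_of_ne_zero hP)
      rw [mem_filter] at hx
      have h1 := lower_of_prim (p := p) (d := d) hv γ n hN (fun _ =>
        ⟨x, by rw [hx.2.1, sub_self]; exact dvd_zero _, hx.2.2⟩)
      refine le_trans ?_ h1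
      apply mul_le_mul_of_nonneg_right _ (by positivity)
      apply div_le_self hc0p.le
      exact one_le_pow₀ (one_le_pow₀ hp1.le)

/-- two-sided bounds at a prime where the form has a primitive zero -/
lemma Bd_of_iso {v k d : ℕ} (hk : 1 ≤ k) (hd : k + 2 ≤ d) (hv : ¬ p ^ (v + 1) ∣ k)
    (y : Fin d → ℕ) (hy : p ^ (2 * v + 1) ∣ ∑ i, y i ^ k) (hyi : ∃ i, ¬ p ∣ y i) :
    ∃ b : ℝ, 0 ≤ b ∧ Bd p k d b := by
  classical
  have hp : p.Prime := Fact.out
  have hp1 : (1 : ℝ) < p := by exact_mod_cast hp.one_lt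
  have hp2 : (2 : ℝ) ≤ p := by exact_mod_cast hp.two_le
  have hp0 : (0 : ℝ) < p := by linarith
  set e := 2 * v + 1 with he
  set c : ℝ := (1 / ((p : ℝ) ^ e) ^ (d - 1)) / ((p : ℝ) ^ d) ^ e with hc
  have hcp : 0 < c := by positivity
  set B : ℝ := (p : ℝ) ^ (2 * v + 1) with hB
  have hB1 : 1 ≤ B := one_le_pow₀ hp1.le
  have hlow : ∀ (γ : ℕ) (n : ZMod (p ^ γ)), N (p ^ γ) k d n ≠ 0 →
      c * ((p : ℝ) ^ γ) ^ (d - 1) ≤ (N (p ^ γ) k d n : ℝ) := by
    intro γ n hN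
    by_cases h : ((p ^ (e * k) : ℕ) : ZMod (p ^ γ)) ∣ n
    · have h1 := lower_of_prim (p := p) (d := d) hv γ n hN (fun hγ => by
        refine ⟨fun i => ((y i : ℕ) : ZMod (p ^ γ)), ?_, ?_⟩
        · apply dvd_sub
          · refine dvd_trans ?_ h
            rw [← he]
            have : p ^ e ∣ p ^ (e * k) := pow_dvd_pow p (by nlinarith)
            exact_mod_cast (Nat.cast_dvd_cast (α := ZMod (p ^ γ)) this)
          · have h2 := Nat.cast_dvd_cast (α := ZMod (p ^ γ)) hy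
            push_cast at h2 ⊢
            exact h2
        · obtain ⟨i, hi⟩ := hyi
          refine ⟨i, ?_⟩
          rw [← isUnit_iff hp (by omega), ZMod.isUnit_iff_coprime]
          apply Nat.Coprime.pow_right
          exact ((Nat.Prime.coprime_iff_not_dvd hp).mpr hi).symm)
      refine le_trans ?_ h1
      apply mul_le_mul_of_nonneg_right _ (by positivity)
      apply div_le_self (by positivity)
      exact one_le_pow₀ (one_le_pow₀ hp1.le)
    · exact lower_rec (p := p) hk (by omega) hv e γ n hN h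
  have hup : ∀ (γ : ℕ) (n : ZMod (p ^ γ)), (N (p ^ γ) k d n : ℝ) ≤ (2 * B) * ((p : ℝ) ^ γ) ^ (d - 1) := by
    apply N_le (p := p) hk hd (B := B)
    · linarith
    · have h1 : (4 : ℝ) ≤ (p : ℝ) ^ 2 := by nlinarith
      have h2 : 2 * B / (p : ℝ) ^ 2 ≤ B / 2 := by
        rw [div_le_div_iff₀ (by positivity) (by norm_num)]
        nlinarith
      linarith
    · intro γ n _
      have h1 := P_le_crude (p := p) (d := d) (by omega) hv γ n
      rw [hB]
      exact_mod_cast h1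
  refine ⟨|Real.log (2 * B)| + |Real.log c|, by positivity, ?_⟩
  intro γ n
  by_cases hN : N (p ^ γ) k d n = 0
  · exact Or.inl hN
  · right
    have hQ : (0 : ℝ) < ((p : ℝ) ^ γ) ^ (d - 1) := by positivity
    constructor
    · refine le_trans (mul_le_mul_of_nonneg_right ?_ hQ.le) (hlow γ n hN)
      have h1 : -(|Real.log (2 * B)| + |Real.log c|) ≤ Real.log c := by
        have := neg_abs_le (Real.log c)
        have := abs_nonneg (Real.log (2 * B))
        linarith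
      calc Real.exp (-(|Real.log (2 * B)| + |Real.log c|)) ≤ Real.exp (Real.log c) := Real.exp_le_exp.mpr h1
        _ = c := Real.exp_log hcp
    · refine (hup γ n).trans (mul_le_mul_of_nonneg_right ?_ hQ.le)
      have h1 : Real.log (2 * B) ≤ |Real.log (2 * B)| + |Real.log c| := by
        have := le_abs_self (Real.log (2 * B))
        have := abs_nonneg (Real.log c)
        linarith
      calc 2 * B = Real.exp (Real.log (2 * B)) := (Real.exp_log (by linarith)).symm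
        _ ≤ _ := Real.exp_le_exp.mpr h1

end Pool.Agent.V5helper16.CT
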