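import Mathlib
import Pool.Agent.V5helper16.CT.A6

/-! Existence of primitive zeros. -/

set_option autoImplicit false

open Finset

namespace Pool.Agent.V5helper16.CT

/-- Chevalley–Warning -/
lemma iso_good {p k d : ℕ} (hp : p.Prime) (hk : 1 ≤ k) (hd : k < d) :
    ∃ y : Fin d → ℕ, p ∣ ∑ i, y i ^ k ∧ ∃ i, ¬ p ∣ y i := by
  classical
  have : Fact p.Prime := ⟨hp⟩
  set f : MvPolynomial (Fin d) (ZMod p) := ∑ i, MvPolynomial.X i ^ k with hf
  have hdeg : f.totalDegree < Fintype.card (Fin d) := by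
    rw [Fintype.card_fin]
    refine lt_of_le_of_lt ?_ hd
    rw [hf]
    refine (MvPolynomial.totalDegree_finsetSum _ _).trans ?_
    apply Finset.sup_le
    intro i _
    rw [MvPolynomial.totalDegree_X_pow]
  have h1 := char_dvd_card_solutions (K := ZMod p) p hdeg
  have hev : ∀ x : Fin d → ZMod p, MvPolynomial.eval x f = ∑ i, x i ^ k := by
    intro x
    simp [hf]
  have h0 : MvPolynomial.eval (0 : Fin d → ZMod p) f = 0 := by
    rw [hev]
    apply sum_eq_zero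
    intro i _
    simp
    omega
  have h2 : 1 < Fintype.card {x : Fin d → ZMod p // MvPolynomial.eval x f = 0} := by
    have h3 : 0 < Fintype.card {x : Fin d → ZMod p // MvPolynomial.eval x f = 0} :=
      Fintype.card_pos_iff.mpr ⟨⟨0, h0⟩⟩
    have h4 := Nat.le_of_dvd h3 h1
    have := hp.two_le
    omega
  obtain ⟨⟨x, hx⟩, hne⟩ := Fintype.exists_ne_of_one_lt_card h2 ⟨0, h0⟩
  have hx0 : x ≠ 0 := by
    intro hcon
    exact hne (Subtype.ext hcon)
  refine ⟨fun i => (x i).val, ?_, ?_⟩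
  · rw [hev] at hx
    rw [← ZMod.natCast_eq_zero_iff]
    push_cast
    simp_rw [ZMod.natCast_zmod_val]
    exact hx
  · by_contra hcon
    push Not at hcon
    apply hx0
    funext i
    have := hcon i
    rw [← ZMod.natCast_eq_zero_iff, ZMod.natCast_zmod_val] at this
    exact this

/-- `p` odd, `p - 1 ∤ k` -/
lemma iso_not_dvd {p k d : ℕ} (hp : p.Prime) (hk : 1 ≤ k) (hpk : ¬ (p - 1) ∣ k) (hd : p - 1 ≤ d) (e : ℕ) :
    ∃ y : Fin d → ℕ, p ^ e ∣ ∑ i, y i ^ k ∧ ∃ i, ¬ p ∣ y i := by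
  classical
  have hFact : Fact p.Prime := ⟨hp⟩
  have hp2 := hp.two_le
  have hp1 : 1 ≤ p - 1 := by omega
  -- a residue which is not killed by `k`
  have hex : ∃ a : (ZMod p)ˣ, a ^ k ≠ 1 := by
    by_contra hcon
    push Not at hcon
    apply hpk
    have := (FiniteField.forall_pow_eq_one_iff (ZMod p) k).mp hcon
    rwa [ZMod.card] at this
  obtain ⟨a, ha⟩ := hex
  set A : ℕ := (a : ZMod p).val with hA
  have hAa : ((A : ℕ) : ZMod p) = (a : ZMod p) := ZMod.natCast_zmod_val _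
  have hAp : ¬ p ∣ A := by
    rw [← ZMod.natCast_eq_zero_iff, hAa]
    exact a.ne_zero
  set w : ℕ := A ^ (p ^ (e - 1)) with hw
  have hwp : ¬ p ∣ w := fun h => hAp (hp.dvd_of_dvd_pow h)
  have hwa : ((w : ℕ) : ZMod p) = (a : ZMod p) := by
    rw [hw]; push_cast; rw [ZMod.pow_card_pow, hAa]
  have hw1 : ((p : ℤ) ^ e) ∣ (w : ℤ) ^ (p - 1) - 1 := by
    rcases Nat.eq_zero_or_pos e with h0 | hpos
    · rw [h0, pow_zero]; exact one_dvd _
    · have h1 := Nat.ModEq.pow_totient (Nat.Coprime.pow_right e ((Nat.Prime.coprime_iff_not_dvd hp).mpr hAp).symm)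
      rw [Nat.totient_prime_pow hp hpos, pow_mul, ← hw] at h1
      have h2 := (Nat.modEq_iff_dvd.mp h1.symm)
      push_cast at h2
      exact h2
  set T : ℤ := ∑ i ∈ range (p - 1), ((w : ℤ) ^ k) ^ i with hT
  have hT1 : ((p : ℤ) ^ e) ∣ T := by
    have h1 : T * ((w : ℤ) ^ k - 1) = ((w : ℤ) ^ k) ^ (p - 1) - 1 := by
      rw [hT]; exact geom_sum_mul _ _
    have h2 : ((p : ℤ) ^ e) ∣ T * ((w : ℤ) ^ k - 1) := by
      rw [h1, ← pow_mul, mul_comm k, pow_mul]
      refine hw1.trans ?_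
      have := sub_dvd_pow_sub_pow ((w : ℤ) ^ (p - 1)) 1 k
      rwa [one_pow] at this
    have h3 : ¬ (p : ℤ) ∣ (w : ℤ) ^ k - 1 := by
      rw [← ZMod.intCast_zmod_eq_zero_iff_dvd]
      push_cast
      rw [hwa, sub_eq_zero]
      intro hcon
      apply ha
      apply Units.ext
      push_cast
      exact hcon
    have h4 : Prime (p : ℤ) := Nat.prime_iff_prime_int.mp hp
    exact h4.pow_dvd_of_dvd_mul_right e h3 h2
  refine ⟨fun i => if (i : ℕ) < p - 1 then w ^ (i : ℕ) else 0, ?_, ⟨⟨0, by omega⟩, ?_⟩⟩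
  · have h1 : ∑ i : Fin d, (if (i : ℕ) < p - 1 then w ^ (i : ℕ) else 0) ^ k =
        ∑ i ∈ range d, (if i < p - 1 then w ^ i else 0) ^ k :=
      Fin.sum_univ_eq_sum_range (fun i => (if i < p - 1 then w ^ i else 0) ^ k) d
    rw [h1]
    have h2 : ∑ i ∈ range d, (if i < p - 1 then w ^ i else 0) ^ k = ∑ i ∈ range (p - 1), (w ^ k) ^ i := by
      rw [← Finset.sum_subset (Finset.range_subset_range.mpr hd)]
      · apply sum_congr rfl
        intro i hi
        rw [mem_range] at hi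
        rw [if_pos hi]
        exact pow_right_comm w i k
      · intro i _ hi
        rw [mem_range] at hi
        rw [if_neg hi, zero_pow (by omega)]
    rw [h2]
    have h3 : ((∑ i ∈ range (p - 1), (w ^ k) ^ i : ℕ) : ℤ) = T := by
      rw [hT]; push_cast; rfl
    have h4 : ((p ^ e : ℕ) : ℤ) ∣ ((∑ i ∈ range (p - 1), (w ^ k) ^ i : ℕ) : ℤ) := by
      rw [h3]; push_cast; exact hT1
    exact_mod_cast h4
  · show ¬ p ∣ (if 0 < p - 1 then w ^ 0 else 0)
    rw [if_pos (by omega), pow_zero, Nat.dvd_one]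
    exact hp.one_lt.ne'

/-- congruences of `p`-th powers -/
lemma pow_cong {R : Type*} [CommRing R] (p : ℕ) {s : ℕ} (hs : 1 ≤ s) (j : ℕ) (a b : R)
    (h : (p : R) ^ s ∣ a - b) : (p : R) ^ (s + j) ∣ a ^ p ^ j - b ^ p ^ j := by
  induction j with
  | zero => simpa using h
  | succ j ih =>
    set A := a ^ p ^ j
    set B := b ^ p ^ j
    have h1 : a ^ p ^ (j + 1) - b ^ p ^ (j + 1) = (∑ i ∈ range p, A ^ i * B ^ (p - 1 - i)) * (A - B) := by
      rw [pow_succ, pow_mul, pow_mul]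
      exact (geom_sum₂_mul A B p).symm
    have h2 : (p : R) ∣ ∑ i ∈ range p, A ^ i * B ^ (p - 1 - i) := by
      have h3 : (p : R) ∣ A - B := dvd_trans (dvd_pow_self _ (by omega)) ih
      have h4 : (p : R) ∣ ∑ i ∈ range p, (A ^ i * B ^ (p - 1 - i) - B ^ (p - 1)) := by
        apply dvd_sum
        intro i hi
        rw [mem_range] at hi
        have h5 : B ^ (p - 1) = B ^ i * B ^ (p - 1 - i) := by rw [← pow_add]; congr 1; omega
        rw [h5, ← sub_mul]
        exact Dvd.dvd.mul_right (h3.trans (sub_dvd_pow_sub_pow A B i)) _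
      rw [sum_sub_distrib, sum_const, card_range, nsmul_eq_mul] at h4
      have h6 : (p : R) ∣ (p : R) * B ^ (p - 1) := dvd_mul_right _ _
      have := dvd_add h4 h6
      rwa [sub_add_cancel] at this
    rw [h1, ← add_assoc, pow_succ, mul_comm ((p : R) ^ (s + j))]
    exact mul_dvd_mul h2 ih

/-- for odd `p`, numbers `≡ 1 mod p ^ (v+1)` are `p ^ v`-th powers -/
lemma root_odd {p v k' e : ℕ} (hp : p.Prime) (hp2 : p ≠ 2) (hk' : ¬ p ∣ k') (he : v + 1 ≤ e)
    (t : ZMod (p ^ e)) (ht : (p : ZMod (p ^ e)) ^ (v + 1) ∣ t - 1) : ∃ r : ZMod (p ^ e), r ^ (p ^ v * k') = t := by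
  classical
  have hFact : Fact p.Prime := ⟨hp⟩
  have hNZ : NeZero (p ^ e) := ⟨pow_ne_zero _ hp.ne_zero⟩
  set j := e - (v + 1) with hj
  have h0 : (p : ZMod (p ^ e)) ^ e = 0 := by
    have := ZMod.natCast_self (p ^ e)
    push_cast at this
    exact this
  have h1 : t ^ p ^ j = 1 := by
    have h2 := pow_cong (R := ZMod (p ^ e)) p (s := v + 1) (by omega) j t 1 ht
    rw [one_pow, show v + 1 + j = e by omega, h0, zero_dvd_iff, sub_eq_zero] at h2
    exact h2
  -- `t` is a unit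
  have htu : IsUnit t := by
    have h3 : p ^ j ≠ 0 := pow_ne_zero _ hp.ne_zero
    exact IsUnit.of_pow_eq_one h1 h3
  obtain ⟨u, hu⟩ := htu
  have hu1 : u ^ p ^ j = 1 := by
    apply Units.ext
    push_cast
    rw [hu, h1]
  -- a `k'`-th root
  have hcop : Nat.Coprime k' (p ^ j) := Nat.Coprime.pow_right _ ((Nat.Prime.coprime_iff_not_dvd hp).mpr hk').symm
  obtain ⟨s, m, hs⟩ : ∃ s m : ℕ, s * k' = 1 + p ^ j * m := by
    rcases Nat.eq_zero_or_pos j with hj0 | hjpos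
    · have hk0 : 0 < k' := by
        rcases Nat.eq_zero_or_pos k' with h | h
        · exact absurd (h ▸ dvd_zero p) hk'
        · exact h
      refine ⟨1, k' - 1, ?_⟩
      rw [hj0, pow_zero, one_mul, one_mul]; omega
    · obtain ⟨s, hs⟩ := Nat.exists_mul_mod_eq_one_of_coprime hcop (Nat.one_lt_pow (by omega) hp.one_lt)
      refine ⟨s, (k' * s) / p ^ j, ?_⟩
      have := Nat.mod_add_div (k' * s) (p ^ j)
      rw [hs.2] at this
      rw [mul_comm s k']
      exact this.symm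
  -- a `p ^ v`-th root
  have hcyc : IsCyclic (ZMod (p ^ e))ˣ := ZMod.isCyclic_units_of_prime_pow p hp hp2 e
  obtain ⟨g, hg⟩ := hcyc.exists_generator
  have hcard : orderOf g = p ^ (e - 1) * (p - 1) := by
    rw [orderOf_eq_card_of_forall_mem_zpowers hg, Nat.card_eq_fintype_card, ZMod.card_units_eq_totient,
      Nat.totient_prime_pow hp (by omega)]
  obtain ⟨z, hz⟩ : ∃ z : ℕ, g ^ z = u := by
    have := hg u
    rw [← mem_powers_iff_mem_zpowers, Submonoid.mem_powers_iff] at this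
    exact this
  have h4 : p ^ (e - 1) * (p - 1) ∣ z * p ^ j := by
    rw [← hcard]
    apply orderOf_dvd_of_pow_eq_one
    rw [pow_mul, hz, hu1]
  have h5 : p ^ v ∣ z := by
    have h6 : p ^ (e - 1) ∣ z * p ^ j := (dvd_mul_right _ _).trans h4
    have h7 : p ^ (e - 1) = p ^ v * p ^ j := by rw [← pow_add]; congr 1; omega
    rw [h7] at h6
    exact Nat.dvd_of_mul_dvd_mul_right (pow_pos hp.pos j) h6
  obtain ⟨b, hb⟩ := h5
  refine ⟨((g ^ (b * s) : (ZMod (p ^ e))ˣ) : ZMod (p ^ e)), ?_⟩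
  rw [← hu, ← Units.val_pow_eq_pow_val]
  congr 1
  rw [← pow_mul]
  have h8 : b * s * (p ^ v * k') = z * (s * k') := by rw [hb]; ring
  rw [h8, hs, pow_mul, hz, pow_add, pow_one, pow_mul, hu1, one_pow, mul_one]

/-- square roots of numbers `≡ 1 mod 2 ^ j` -/
lemma sqrt_two {j : ℕ} (hj : 3 ≤ j) (t : ℤ) (ht : (2 : ℤ) ^ j ∣ t - 1) (e : ℕ) :
    ∃ s : ℤ, (2 : ℤ) ^ (j - 1) ∣ s - 1 ∧ (2 : ℤ) ^ e ∣ s ^ 2 - t := by
  rcases Nat.lt_or_ge e j with h | h
  · refine ⟨1, by simp, ?_⟩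
    rw [one_pow, ← dvd_neg, neg_sub]
    exact (pow_dvd_pow 2 h.le).trans ht
  · induction e, h using Nat.le_induction with
    | base =>
      refine ⟨1, by simp, ?_⟩
      rw [one_pow, ← dvd_neg, neg_sub]
      exact ht
    | succ e he ih =>
      obtain ⟨s, hs1, q, hq⟩ := ih
      refine ⟨s - 2 ^ (e - 1) * q, ?_, ?_⟩
      · have h1 : s - 2 ^ (e - 1) * q - 1 = (s - 1) - 2 ^ (e - 1) * q := by ring
        rw [h1]
        exact dvd_sub hs1 (Dvd.dvd.mul_right (pow_dvd_pow 2 (by omega)) q)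
      · have h2 : (2 : ℤ) ∣ s - 1 := (dvd_pow_self 2 (by omega)).trans hs1
        obtain ⟨c, hc⟩ := h2
        have h3 : (2 : ℤ) ^ e = 2 * 2 ^ (e - 1) := by rw [← pow_succ']; congr 1; omega
        have h4 : (2 : ℤ) ^ (e - 1) * 2 ^ (e - 1) = 2 ^ (e + 1) * 2 ^ (e - 3) := by
          rw [← pow_add, ← pow_add]; congr 1; omega
        have h5 : (s - 2 ^ (e - 1) * q) ^ 2 - t = 2 ^ (e + 1) * (2 ^ (e - 3) * q ^ 2 - c * q) := by
          have h6 : (s - 2 ^ (e - 1) * q) ^ 2 - t = (s ^ 2 - t) - 2 * 2 ^ (e - 1) * s * q +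
            (2 ^ (e - 1) * 2 ^ (e - 1)) * q ^ 2 := by ring
          rw [h6, hq, h4, ← h3, pow_succ]
          have h7 : s = 2 * c + 1 := by linarith
          rw [h7]
          ring
        rw [h5]
        exact dvd_mul_right _ _

/-- numbers `≡ 1 mod 2 ^ (v+2)` are `2 ^ v`-th powers -/
lemma root_two (v : ℕ) : ∀ t : ℤ, (2 : ℤ) ^ (v + 2) ∣ t - 1 → ∀ e : ℕ,
    ∃ r : ℤ, (4 : ℤ) ∣ r - 1 ∧ (2 : ℤ) ^ e ∣ r ^ (2 ^ v) - t := by
  induction v with
  | zero =>
    intro t ht e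
    refine ⟨t, ?_, ?_⟩
    · norm_num at ht
      exact ht
    · simp
  | succ v ih =>
    intro t ht e
    obtain ⟨s, hs1, hs2⟩ := sqrt_two (j := v + 3) (by omega) t (by
      rw [show v + 3 = v + 1 + 2 by ring]; exact ht) e
    obtain ⟨r, hr1, hr2⟩ := ih s (by
      rw [show v + 2 = v + 3 - 1 by omega]; exact hs1) e
    refine ⟨r, hr1, ?_⟩
    have h1 : r ^ 2 ^ (v + 1) - t = ((r ^ 2 ^ v) ^ 2 - s ^ 2) + (s ^ 2 - t) := by
      rw [pow_succ 2 v, pow_mul]; ring
    rw [h1]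
    exact dvd_add (hr2.trans (sub_dvd_pow_sub_pow _ _ 2)) hs2

/-- assembling a primitive zero from `1 - Q` being a `k`-th power -/
lemma iso_of_root {p k d Q e : ℕ} (hp : p.Prime) (hk : 1 ≤ k) (he : 1 ≤ e) (hQ : 1 ≤ Q) (hpQ : p ∣ Q) (hQd : Q ≤ d)
    (r : ℕ) (hr : ((p : ℤ) ^ e) ∣ (r : ℤ) ^ k - (1 - Q)) :
    ∃ y : Fin d → ℕ, p ^ e ∣ ∑ i, y i ^ k ∧ ∃ i, ¬ p ∣ y i := by
  classical
  have hrp : ¬ p ∣ r := by
    intro hcon
    have h1 : (p : ℤ) ∣ (r : ℤ) ^ k := by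
      exact_mod_cast (dvd_pow hcon (by omega) : p ∣ r ^ k)
    have h2 : (p : ℤ) ∣ (r : ℤ) ^ k - (1 - Q) := (dvd_pow_self _ (by omega)).trans hr
    have h3 : (p : ℤ) ∣ (Q : ℤ) := by exact_mod_cast hpQ
    have h4 : (p : ℤ) ∣ 1 := by
      have := dvd_sub (dvd_add h1 h3) h2
      have e1 : (r : ℤ) ^ k + Q - ((r : ℤ) ^ k - (1 - Q)) = 1 := by ring
      rwa [e1] at this
    have h5 : p ∣ 1 := by exact_mod_cast h4
    exact hp.one_lt.ne' (Nat.dvd_one.mp h5)
  have hd : 1 ≤ d := hQ.trans hQd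
  refine ⟨fun i => if (i : ℕ) = 0 then r else if (i : ℕ) < Q then 1 else 0, ?_, ⟨⟨0, by omega⟩, by simpa using hrp⟩⟩
  have h1 : ∑ i : Fin d, (if (i : ℕ) = 0 then r else if (i : ℕ) < Q then 1 else 0) ^ k =
      ∑ i ∈ range d, (if i = 0 then r else if i < Q then 1 else 0) ^ k :=
    Fin.sum_univ_eq_sum_range (fun i => (if i = 0 then r else if i < Q then 1 else 0) ^ k) d
  rw [h1]
  have h2 : ∑ i ∈ range d, (if i = 0 then r else if i < Q then 1 else 0) ^ k = r ^ k + (Q - 1) := by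
    rw [← Finset.sum_subset (Finset.range_subset_range.mpr hQd)]
    · obtain ⟨Q', rfl⟩ : ∃ Q', Q = Q' + 1 := ⟨Q - 1, by omega⟩
      rw [Finset.sum_range_succ']
      rw [add_comm]
      congr 1
      rw [Nat.add_sub_cancel]
      rw [sum_congr rfl (g := fun _ => 1)]
      · simp
      · intro i hi
        rw [mem_range] at hi
        rw [if_neg (by omega), if_pos (by omega), one_pow]
    · intro i _ hi
      rw [mem_range] at hi
      rw [if_neg (by omega), if_neg hi, zero_pow (by omega)]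
  rw [h2]
  have h3 : ((p ^ e : ℕ) : ℤ) ∣ ((r ^ k + (Q - 1) : ℕ) : ℤ) := by
    push_cast [Nat.cast_sub hQ]
    have e1 : (r : ℤ) ^ k + ((Q : ℤ) - 1) = (r : ℤ) ^ k - (1 - Q) := by ring
    rw [e1]
    exact hr
  exact_mod_cast h3

/-- the local condition -/
def LocalBound (k d : ℕ) : Prop :=
  k + 2 ≤ d ∧ (2 ∣ k → 2 ^ (padicValNat 2 k + 2) ≤ d) ∧
    ∀ p : ℕ, p.Prime → p ≠ 2 → (p - 1) ∣ k → p ^ (padicValNat p k + 1) ≤ d

/-- existence of primitive zeros at every prime -/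
theorem iso_all {p k d : ℕ} (hp : p.Prime) (hk : 3 ≤ k) (h : LocalBound k d) :
    ∃ y : Fin d → ℕ, p ^ (2 * padicValNat p k + 1) ∣ ∑ i, y i ^ k ∧ ∃ i, ¬ p ∣ y i := by
  classical
  obtain ⟨hd, h2, hodd⟩ := h
  have hFact : Fact p.Prime := ⟨hp⟩
  by_cases hpk : p ∣ k
  · have hv : 1 ≤ padicValNat p k := one_le_padicValNat_of_dvd (by omega) hpk
    have hple : p ≤ k := Nat.le_of_dvd (by omega) hpk
    set v := padicValNat p k with hvdef
    obtain ⟨k', hk'⟩ : p ^ v ∣ k := pow_padicValNat_dvd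
    have hk'p : ¬ p ∣ k' := by
      intro hcon
      obtain ⟨c, hc⟩ := hcon
      have h3 : p ^ (v + 1) ∣ k := ⟨c, by rw [hk', hc, pow_succ]; ring⟩
      exact pow_succ_padicValNat_not_dvd (by omega : k ≠ 0) h3
    by_cases hp2 : p = 2
    · subst hp2
      have hQ := h2 hpk
      obtain ⟨r, hr1, hr2⟩ := root_two v (1 - 2 ^ (v + 2)) (by
        have : (1 : ℤ) - 2 ^ (v + 2) - 1 = -(2 ^ (v + 2)) := by ring
        rw [this, dvd_neg]) (2 * v + 1)
      -- a `k'`-th root of `r`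
      obtain ⟨s, hs, _⟩ := TH854.KS.hensel (p := 2) (K := 2 * v + 1) (k := k') Nat.prime_two (by omega) hk'p
        (1 : ZMod (2 ^ (2 * v + 1))) ((r : ℤ) : ZMod (2 ^ (2 * v + 1))) isUnit_one (by
          rw [one_pow]
          have h3 : (2 : ℤ) ∣ r - 1 := dvd_trans (by norm_num) hr1
          obtain ⟨c, hc⟩ := h3
          refine ⟨(c : ZMod (2 ^ (2 * v + 1))), ?_⟩
          have h4 : ((r - 1 : ℤ) : ZMod (2 ^ (2 * v + 1))) = ((2 * c : ℤ) : ZMod (2 ^ (2 * v + 1))) := by rw [hc]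
          push_cast at h4 ⊢
          exact h4)
      apply iso_of_root hp (by omega) (by omega) (Q := 2 ^ (v + 2)) (Nat.one_le_two_pow) (dvd_pow_self 2 (by omega)) hQ
        s.val
      have h5 : (((s.val : ℤ) ^ k - (1 - ((2 ^ (v + 2) : ℕ) : ℤ)) : ℤ) : ZMod (2 ^ (2 * v + 1))) = 0 := by
        push_cast
        have h7 : s ^ k = (r : ZMod (2 ^ (2 * v + 1))) ^ 2 ^ v := by
          rw [← hs, ← pow_mul]
          congr 1
          rw [hk', mul_comm]
        rw [ZMod.natCast_zmod_val, h7]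
        have h6 : ((r ^ 2 ^ v - (1 - 2 ^ (v + 2)) : ℤ) : ZMod (2 ^ (2 * v + 1))) = 0 := by
          rw [ZMod.intCast_zmod_eq_zero_iff_dvd]
          exact_mod_cast hr2
        push_cast at h6
        exact h6
      rw [ZMod.intCast_zmod_eq_zero_iff_dvd] at h5
      exact_mod_cast h5
    · by_cases hp1k : (p - 1) ∣ k
      · have hQ := hodd p hp hp2 hp1k
        obtain ⟨r, hr⟩ := root_odd (p := p) (v := v) (k' := k') (e := 2 * v + 1) hp hp2 hk'p (by omega)
          (1 - (p : ZMod (p ^ (2 * v + 1))) ^ (v + 1)) (by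
            have : (1 : ZMod (p ^ (2 * v + 1))) - (p : ZMod (p ^ (2 * v + 1))) ^ (v + 1) - 1 =
              -((p : ZMod (p ^ (2 * v + 1))) ^ (v + 1)) := by ring
            rw [this, dvd_neg])
        rw [← hk'] at hr
        apply iso_of_root hp (by omega) (by omega) (Q := p ^ (v + 1)) (Nat.one_le_pow _ _ hp.pos)
          (dvd_pow_self p (by omega)) hQ r.val
        have h5 : (((r.val : ℤ) ^ k - (1 - ((p ^ (v + 1) : ℕ) : ℤ)) : ℤ) : ZMod (p ^ (2 * v + 1))) = 0 := by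
          push_cast
          rw [ZMod.natCast_zmod_val, hr, sub_self]
        rw [ZMod.intCast_zmod_eq_zero_iff_dvd] at h5
        exact_mod_cast h5
      · exact iso_not_dvd hp (by omega) hp1k (by omega) _
  · rw [padicValNat.eq_zero_of_not_dvd hpk, mul_zero, zero_add, pow_one]
    exact iso_good hp (by omega) (by omega)

end Pool.Agent.V5helper16.CT
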