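import Mathlib
import Pool.Agent.V5helper16.CT.A7
import Pool.Agent.TH854.KS.K7

/-! All moduli together; the converse. -/

set_option autoImplicit false

open Finset

namespace Pool.Agent.V5helper16.CT

lemma Bd_mono {p k d : ℕ} [Fact p.Prime] {b b' : ℝ} (h : Bd p k d b) (hb : b ≤ b') : Bd p k d b' := by
  intro γ n
  have hp : p.Prime := Fact.out
  have hQ : (0 : ℝ) ≤ ((p : ℝ) ^ γ) ^ (d - 1) := by positivity
  rcases h γ n with h1 | ⟨h1, h2⟩
  · exact Or.inl h1
  · right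
    refine ⟨le_trans ?_ h1, h2.trans ?_⟩
    · exact mul_le_mul_of_nonneg_right (Real.exp_le_exp.mpr (by linarith)) hQ
    · exact mul_le_mul_of_nonneg_right (Real.exp_le_exp.mpr hb) hQ

/-- all moduli, with the product of the local constants -/
lemma all_moduli {k d : ℕ} (a : ℕ → ℝ) (H : ∀ p : ℕ, p.Prime → Bd p k d (a p)) (q : ℕ) (hq : 1 ≤ q) :
    ∀ n : ZMod q, N q k d n = 0 ∨
      (Real.exp (-∑ p ∈ q.primeFactors, a p) * (q : ℝ) ^ (d - 1) ≤ (N q k d n : ℝ) ∧
        (N q k d n : ℝ) ≤ Real.exp (∑ p ∈ q.primeFactors, a p) * (q : ℝ) ^ (d - 1)) := by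
  classical
  induction q using Nat.recOnPosPrimePosCoprime with
  | prime_pow p γ hp hγ =>
    intro n
    rcases H p hp γ n with h1 | h1
    · exact Or.inl h1
    · right
      rw [Nat.primeFactors_prime_pow hγ.ne' hp, sum_singleton]
      push_cast
      exact h1
  | zero => omega
  | one =>
    intro n
    right
    rw [N_one]
    simp
  | coprime x y hx hy hxy ihx ihy =>
    intro n
    rw [N_mul hxy]
    rcases ihx (by omega) (ZMod.chineseRemainder hxy n).1 with h1 | ⟨h1, h2⟩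
    · left; rw [h1, zero_mul]
    rcases ihy (by omega) (ZMod.chineseRemainder hxy n).2 with h3 | ⟨h3, h4⟩
    · left; rw [h3, mul_zero]
    right
    rw [Nat.Coprime.primeFactors_mul hxy, sum_union (Nat.Coprime.disjoint_primeFactors hxy)]
    push_cast
    rw [neg_add, Real.exp_add, Real.exp_add, mul_pow]
    constructor
    · calc _ = (Real.exp (-∑ p ∈ x.primeFactors, a p) * (x : ℝ) ^ (d - 1)) *
            (Real.exp (-∑ p ∈ y.primeFactors, a p) * (y : ℝ) ^ (d - 1)) := by ring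
        _ ≤ _ := mul_le_mul h1 h3 (by positivity) (by positivity)
    · calc _ ≤ (Real.exp (∑ p ∈ x.primeFactors, a p) * (x : ℝ) ^ (d - 1)) *
            (Real.exp (∑ p ∈ y.primeFactors, a p) * (y : ℝ) ^ (d - 1)) :=
              mul_le_mul h2 h4 (by positivity) (by positivity)
        _ = _ := by ring

lemma sqrt_cube (n : ℕ) : (√(n : ℝ)) ^ 3 = (n : ℝ) ^ ((3 : ℝ) / 2) := by
  rw [Real.sqrt_eq_rpow, ← Real.rpow_natCast, ← Real.rpow_mul (by positivity)]
  norm_num

/-- the congruence analogue of the problem -/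
def CongruenceOrder (k d : ℕ) : Prop :=
  ∃ c C : ℝ, 0 < c ∧ c ≤ C ∧ ∀ q : ℕ, 1 ≤ q → ∀ n : ZMod q, N q k d n ≠ 0 →
    c * (q : ℝ) ^ (d - 1) ≤ (N q k d n : ℝ) ∧ (N q k d n : ℝ) ≤ C * (q : ℝ) ^ (d - 1)

theorem order_of_local {k d : ℕ} (hk : 3 ≤ k) (h : LocalBound k d) : CongruenceOrder k d := by
  classical
  have hd : k + 2 ≤ d := h.1
  -- the crude constants
  have hex : ∀ p : ℕ, ∃ b : ℝ, 0 ≤ b ∧ (p.Prime → Bd p k d b) := by
    intro p
    by_cases hp : p.Prime
    · have : Fact p.Prime := ⟨hp⟩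
      obtain ⟨y, hy, hyi⟩ := iso_all hp hk h
      obtain ⟨b, hb, hB⟩ := Bd_of_iso (p := p) (v := padicValNat p k) (by omega) hd
        (pow_succ_padicValNat_not_dvd (by omega : k ≠ 0)) y hy hyi
      exact ⟨b, hb, fun _ => hB⟩
    · exact ⟨0, le_rfl, fun h => absurd h hp⟩
  choose b hb0 hb using hex
  set K : ℝ := (k : ℝ) ^ d + 2 with hK
  have hK0 : 0 < K := by positivity
  obtain ⟨P0, hP0⟩ := exists_nat_ge ((2 * K) ^ 2 + k + 1)
  set a : ℕ → ℝ := fun p => 2 * (K / √(p : ℝ) ^ 3) + (if p < P0 then b p else 0) with ha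
  have ha0 : ∀ p, 0 ≤ a p := by
    intro p
    have h1 : 0 ≤ 2 * (K / √(p : ℝ) ^ 3) := by positivity
    have h2 : 0 ≤ (if p < P0 then b p else 0) := by
      split_ifs
      · exact hb0 p
      · exact le_rfl
    exact add_nonneg h1 h2
  have hs : Summable a := by
    apply Summable.add
    · have h1 : Summable (fun n : ℕ => 1 / (n : ℝ) ^ ((3 : ℝ) / 2)) :=
        Real.summable_one_div_nat_rpow.mpr (by norm_num)
      have h2 := h1.mul_left (2 * K)
      refine h2.congr (fun n => ?_)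
      rw [sqrt_cube]
      ring
    · apply summable_of_hasFiniteSupport
      apply (Set.finite_Iio P0).subset
      intro n hn
      rw [Function.mem_support] at hn
      rw [Set.mem_Iio]
      by_contra hcon
      exact hn (if_neg hcon)
  have hB : ∀ p : ℕ, p.Prime → Bd p k d (a p) := by
    intro p hp
    have : Fact p.Prime := ⟨hp⟩
    by_cases hlt : p < P0
    · apply Bd_mono (hb p hp)
      simp only [ha, if_pos hlt]
      have h1 : 0 ≤ 2 * (K / √(p : ℝ) ^ 3) := by positivity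
      linarith
    · have h1 : (P0 : ℝ) ≤ p := by exact_mod_cast not_lt.mp hlt
      have h2 : k < p := by
        have : (k : ℝ) < p := by nlinarith [sq_nonneg (2 * K)]
        exact_mod_cast this
      have h3 : 2 * K ≤ √(p : ℝ) := by
        apply Real.le_sqrt_of_sq_le
        have : (0 : ℝ) ≤ k := by positivity
        linarith
      have hp1 : (1 : ℝ) ≤ p := by exact_mod_cast hp.one_lt.le
      have h4 : 1 ≤ √(p : ℝ) := Real.one_le_sqrt.mpr hp1
      have h5 : K / √(p : ℝ) ^ 3 ≤ 1 / 2 := by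
        rw [div_le_div_iff₀ (by positivity) (by norm_num)]
        have h6 : √(p : ℝ) ≤ √(p : ℝ) ^ 3 := by
          calc √(p : ℝ) = √(p : ℝ) ^ 1 := (pow_one _).symm
            _ ≤ _ := pow_le_pow_right₀ h4 (by norm_num)
        linarith
      apply Bd_mono (Bd_large (p := p) hk hd h2 h5)
      simp only [ha, if_neg hlt, add_zero]
      exact le_rfl
  refine ⟨Real.exp (-∑' p, a p), Real.exp (∑' p, a p), Real.exp_pos _, ?_, ?_⟩
  · apply Real.exp_le_exp.mpr
    have h0 : 0 ≤ ∑' p, a p := tsum_nonneg ha0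
    linarith
  · intro q hq n hN
    have hle : ∑ p ∈ q.primeFactors, a p ≤ ∑' p, a p :=
      hs.sum_le_tsum _ (fun p _ => ha0 p)
    rcases all_moduli a hB q hq n with h1 | ⟨h1, h2⟩
    · exact absurd h1 hN
    · have hQ : (0 : ℝ) ≤ (q : ℝ) ^ (d - 1) := by positivity
      constructor
      · refine le_trans (mul_le_mul_of_nonneg_right ?_ hQ) h1
        exact Real.exp_le_exp.mpr (by linarith)
      · refine h2.trans (mul_le_mul_of_nonneg_right ?_ hQ)
        exact Real.exp_le_exp.mpr hle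

/-! ### The converse -/

lemma no_prim_two {k : ℕ} (hk : 3 ≤ k) (h2 : 2 ∣ k) :
    (∀ y : ℕ, 2 ∣ y → 2 ^ (padicValNat 2 k + 2) ∣ y ^ k) ∧
    (∀ y : ℕ, ¬ 2 ∣ y → ((2 ^ (padicValNat 2 k + 2) : ℕ) : ℤ) ∣ (y : ℤ) ^ k - 1) := by
  have hτ : 1 ≤ padicValNat 2 k := one_le_padicValNat_of_dvd (by omega) h2
  have hdvd : 2 ^ padicValNat 2 k ∣ k := pow_padicValNat_dvd
  set τ := padicValNat 2 k with hτdef
  have hk2 : τ + 2 ≤ k := by
    have h1 := Nat.le_of_dvd (by omega) hdvd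
    rcases Nat.lt_or_ge τ 2 with h2 | h2
    · have h3 : τ = 1 := by omega
      omega
    · have h3 := TH854.KS.two_pow_ge τ h2
      omega
  constructor
  · intro z hz
    exact (pow_dvd_pow 2 hk2).trans (pow_dvd_pow_of_dvd hz k)
  · intro z hz
    obtain ⟨m, hm⟩ := hdvd
    have h1 := TH854.KS.odd_pow_two z hz τ hτ
    push_cast
    have h2 : (z : ℤ) ^ k = ((z : ℤ) ^ (2 ^ τ)) ^ m := by rw [← pow_mul, ← hm]
    rw [h2]
    refine h1.trans ?_
    have := sub_dvd_pow_sub_pow ((z : ℤ) ^ (2 ^ τ)) 1 m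
    rwa [one_pow] at this

lemma no_prim_odd {p k : ℕ} (hp : p.Prime) (_hp2 : p ≠ 2) (hk : 3 ≤ k) (hpk : (p - 1) ∣ k) :
    (∀ y : ℕ, p ∣ y → p ^ (padicValNat p k + 1) ∣ y ^ k) ∧
    (∀ y : ℕ, ¬ p ∣ y → ((p ^ (padicValNat p k + 1) : ℕ) : ℤ) ∣ (y : ℤ) ^ k - 1) := by
  have hFact : Fact p.Prime := ⟨hp⟩
  have hdvd1 : p ^ padicValNat p k ∣ k := pow_padicValNat_dvd
  set τ := padicValNat p k with hτdef
  have hdvd : (p - 1) * p ^ τ ∣ k := by
    apply Nat.Coprime.mul_dvd_of_dvd_of_dvd _ hpk hdvd1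
    apply Nat.Coprime.pow_right
    rw [Nat.coprime_comm, Nat.Prime.coprime_iff_not_dvd hp]
    intro hcon
    have h1 := hp.two_le
    have := Nat.le_of_dvd (by omega) hcon
    omega
  have hk2 : τ + 1 ≤ k := by
    have h1 := Nat.le_of_dvd (by omega) hdvd
    have h2 : τ < p ^ τ := Nat.lt_pow_self hp.one_lt
    have h3 : 1 ≤ p - 1 := by have := hp.two_le; omega
    nlinarith
  constructor
  · intro z hz
    exact (pow_dvd_pow p hk2).trans (pow_dvd_pow_of_dvd hz k)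
  · intro z hz
    obtain ⟨m, hm⟩ := hdvd
    have hcop : Nat.Coprime z (p ^ (τ + 1)) := by
      apply Nat.Coprime.pow_right
      exact ((Nat.Prime.coprime_iff_not_dvd hp).mpr hz).symm
    have h1 := Nat.ModEq.pow_totient hcop
    rw [Nat.totient_prime_pow_succ hp, mul_comm (p ^ τ)] at h1
    have h2 := (Nat.modEq_iff_dvd.mp h1.symm)
    push_cast at h2
    push_cast
    have h3 : (z : ℤ) ^ k = ((z : ℤ) ^ ((p - 1) * p ^ τ)) ^ m := by rw [← pow_mul, ← hm]
    rw [h3]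
    refine h2.trans ?_
    have := sub_dvd_pow_sub_pow ((z : ℤ) ^ ((p - 1) * p ^ τ)) 1 m
    rwa [one_pow] at this

/-- if the local bound fails above dimension `k + 1` then some prime has no primitive zero -/
lemma no_prim_of_not {k d : ℕ} (hk : 3 ≤ k) (hd : k + 2 ≤ d) (h : ¬ LocalBound k d) :
    ∃ p : ℕ, p.Prime ∧ ∃ γ : ℕ, ∀ y : Fin d → ℕ, p ^ γ ∣ ∑ i, y i ^ k → ∀ i, p ∣ y i := by
  unfold LocalBound at h
  rw [not_and_or, not_and_or] at h
  rcases h with h | h | h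
  · exact absurd hd h
  · push Not at h
    obtain ⟨h2, hlt⟩ := h
    refine ⟨2, Nat.prime_two, padicValNat 2 k + 2, fun y hy => ?_⟩
    by_contra hcon
    push Not at hcon
    have := TH854.KS.obstruct (no_prim_two hk h2).1 (no_prim_two hk h2).2 y hy hcon
    omega
  · push Not at h
    obtain ⟨p, hp, hp2, hpk, hlt⟩ := h
    refine ⟨p, hp, padicValNat p k + 1, fun y hy => ?_⟩
    by_contra hcon
    push Not at hcon
    have := TH854.KS.obstruct (no_prim_odd hp hp2 hk hpk).1 (no_prim_odd hp hp2 hk hpk).2 y hy hcon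
    omega

lemma N_pos_zero {q k d : ℕ} [NeZero q] (hk : 1 ≤ k) : N q k d 0 ≠ 0 := by
  classical
  rw [N_eq]
  apply ne_of_gt
  rw [card_pos]
  refine ⟨0, ?_⟩
  rw [mem_filter]
  refine ⟨mem_univ _, sum_eq_zero (fun i _ => ?_)⟩
  rw [Pi.zero_apply, zero_pow (by omega)]

lemma Z_rec_zero {p : ℕ} [Fact p.Prime] {γ k : ℕ} (hk : 1 ≤ k) (hγ : k ≤ γ) (d : ℕ) :
    Z p γ k d 0 * p ^ d = (p ^ k) ^ d * N (p ^ (γ - k)) k d 0 := by
  have h := Z_rec (p := p) hk hγ d 0
  simpa using h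

theorem local_of_order {k d : ℕ} (hk : 3 ≤ k) (hd1 : 1 ≤ d) (h : CongruenceOrder k d) :
    LocalBound k d := by
  classical
  obtain ⟨c, C, hc, hcC, h⟩ := h
  have hC0 : 0 < C := lt_of_lt_of_le hc hcC
  -- first step: `d ≥ k + 2`
  have hd : k + 2 ≤ d := by
    by_contra hcon
    push Not at hcon
    rcases Nat.lt_or_ge d k with hlt | hge
    · -- `d < k`
      obtain ⟨m, hm⟩ := exists_nat_gt C
      obtain ⟨p, hpm, hp⟩ := Nat.exists_infinite_primes m
      have hFact : Fact p.Prime := ⟨hp⟩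
      have hpC : C < p := lt_of_lt_of_le hm (by exact_mod_cast hpm)
      have hp1 : (1 : ℝ) ≤ p := by exact_mod_cast hp.one_lt.le
      have h1 := Z_rec_zero (p := p) (γ := k) (k := k) (by omega) le_rfl d
      have h2 : N (p ^ (k - k)) k d 0 = 1 := by
        rw [Nat.sub_self]
        exact N_zero_pow k d 0
      rw [h2, mul_one] at h1
      have h3 := (h (p ^ k) (Nat.one_le_pow _ _ hp.pos) 0 (N_pos_zero (by omega))).2
      have h4 : (Z p k k d 0 : ℝ) ≤ (N (p ^ k) k d 0 : ℝ) := by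
        have := N_eq_add (p := p) k k d 0
        rw [this]; push_cast
        have : (0 : ℝ) ≤ (P p k k d 0 : ℝ) := Nat.cast_nonneg _
        linarith
      have h5 : (Z p k k d 0 : ℝ) * (p : ℝ) ^ d = ((p : ℝ) ^ k) ^ d := by exact_mod_cast h1
      have h6 : ((p : ℝ) ^ k) ^ d = (p : ℝ) ^ k * ((p : ℝ) ^ k) ^ (d - 1) := by
        rw [← pow_succ']; congr 1; omega
      have h7 : (p : ℝ) ^ k = (p : ℝ) ^ (k - d) * (p : ℝ) ^ d := by
        rw [← pow_add]; congr 1; omega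
      have h8 : (p : ℝ) ≤ (p : ℝ) ^ (k - d) := by
        calc (p : ℝ) = (p : ℝ) ^ 1 := (pow_one _).symm
          _ ≤ _ := pow_le_pow_right₀ hp1 (by omega)
      have hpd : (0 : ℝ) < (p : ℝ) ^ d := by positivity
      have hQ : (0 : ℝ) < ((p : ℝ) ^ k) ^ (d - 1) := by positivity
      push_cast at h3
      have h9 : ((p : ℝ) ^ k) ^ d ≤ (C * ((p : ℝ) ^ k) ^ (d - 1)) * (p : ℝ) ^ d := by
        rw [← h5]
        exact mul_le_mul_of_nonneg_right (h4.trans h3) hpd.le
      rw [h6] at h9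
      have h10 : (p : ℝ) * (p : ℝ) ^ d ≤ (p : ℝ) ^ k := by
        rw [h7]
        exact mul_le_mul_of_nonneg_right h8 hpd.le
      have h11 : (p : ℝ) * (p : ℝ) ^ d * ((p : ℝ) ^ k) ^ (d - 1) ≤
          C * (p : ℝ) ^ d * ((p : ℝ) ^ k) ^ (d - 1) := by
        have := mul_le_mul_of_nonneg_right h10 hQ.le
        nlinarith
      have h12 := le_of_mul_le_mul_right h11 hQ
      have h13 := le_of_mul_le_mul_right h12 hpd
      linarith
    · have hd' : d = k ∨ d = k + 1 := by omega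
      obtain ⟨N0, hN0⟩ := exists_nat_ge ((2 * ((k : ℝ) ^ (k + 1) + 1)) ^ 2)
      obtain ⟨S, hS, hB⟩ := TH854.KS.exists_primes N0 (C + 1)
      set W := ∏ p ∈ S, p ^ k with hW
      have hWpos : 0 < W := by
        rw [hW]
        exact prod_pos (fun p hp => pow_pos (hS p hp).1.pos _)
      have hNZ : NeZero W := ⟨hWpos.ne'⟩
      have h1 := (h W hWpos 0 (N_pos_zero (by omega))).2
      rw [N_zero] at h1
      have h2 : (TH854.KS.M W k d : ℝ) = ∏ p ∈ S, (TH854.KS.M (p ^ k) k d : ℝ) := by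
        rw [hW, TH854.KS.M_prod S (fun p hp => (hS p hp).1)]
        push_cast
        rfl
      have h3 : (∏ p ∈ S, (1 + 1 / (2 * (p : ℝ)))) * (W : ℝ) ^ (d - 1) ≤ (TH854.KS.M W k d : ℝ) := by
        rw [h2, hW]
        push_cast
        rw [← prod_pow, ← prod_mul_distrib]
        apply prod_le_prod
        · intro p _; positivity
        · intro p hp
          have : Fact p.Prime := ⟨(hS p hp).1⟩
          have h4 := TH854.KS.density (p := p) hk hd' (hN0.trans (by exact_mod_cast (hS p hp).2))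
          rw [pow_mul] at h4
          exact h4
      have hW1 : (0 : ℝ) < (W : ℝ) ^ (d - 1) := by
        have : (0 : ℝ) < W := by exact_mod_cast hWpos
        positivity
      have h5 := le_of_mul_le_mul_right (h3.trans h1) hW1
      linarith
  by_contra hcon
  obtain ⟨p, hp, γ, hγ⟩ := no_prim_of_not hk hd hcon
  have hFact : Fact p.Prime := ⟨hp⟩
  have hp2 : (2 : ℝ) ≤ p := by exact_mod_cast hp.two_le
  have hp1 : (1 : ℝ) ≤ p := by linarith
  -- no primitive solution modulo `p ^ m`, `m ≥ γ`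
  have hP : ∀ m : ℕ, γ ≤ m → P p m k d 0 = 0 := by
    intro m hm
    by_contra hne
    rw [P_eq] at hne
    obtain ⟨x, hx⟩ := card_pos.mp (Nat.pos_of_ne_zero hne)
    rw [mem_filter] at hx
    obtain ⟨_, hx1, i, hi⟩ := hx
    have h1 : p ^ m ∣ ∑ i, (x i).val ^ k := by
      rw [← ZMod.natCast_eq_zero_iff]
      push_cast
      simp_rw [ZMod.natCast_zmod_val]
      exact hx1
    obtain ⟨t, ht⟩ := hγ (fun i => (x i).val) ((pow_dvd_pow p hm).trans h1) i
    apply hi
    refine ⟨(t : ZMod (p ^ m)), ?_⟩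
    have ht' : (x i).val = p * t := ht
    rw [← ZMod.natCast_zmod_val (x i), ht']
    push_cast
    rfl
  set r0 : ℝ := (N (p ^ (γ + k * 0)) k d 0 : ℝ) with hr0
  have key : ∀ j : ℕ, (N (p ^ (γ + k * j)) k d 0 : ℝ) ≤ r0 * (1 / 4) ^ j * ((p : ℝ) ^ (γ + k * j)) ^ (d - 1) := by
    intro j
    induction j with
    | zero =>
      rw [pow_zero, mul_one]
      have h1 : (1 : ℝ) ≤ ((p : ℝ) ^ (γ + k * 0)) ^ (d - 1) := one_le_pow₀ (one_le_pow₀ hp1)
      have h2 : 0 ≤ r0 := Nat.cast_nonneg _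
      nlinarith
    | succ j ih =>
      have h1 := Z_rec_zero (p := p) (γ := γ + k * (j + 1)) (k := k) (by omega) (by nlinarith) d
      have h2 : γ + k * (j + 1) - k = γ + k * j := by
        rw [mul_add, mul_one, ← add_assoc, Nat.add_sub_cancel]
      have h3 : N (p ^ (γ + k * (j + 1))) k d 0 = Z p (γ + k * (j + 1)) k d 0 := by
        rw [N_eq_add, hP _ (by omega), add_zero]
      rw [← h3, h2] at h1
      have h4 : (N (p ^ (γ + k * (j + 1))) k d 0 : ℝ) * (p : ℝ) ^ d =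
          ((p : ℝ) ^ k) ^ d * (N (p ^ (γ + k * j)) k d 0 : ℝ) := by exact_mod_cast h1
      have h5 : ((p : ℝ) ^ k) ^ d * (N (p ^ (γ + k * j)) k d 0 : ℝ) ≤
          ((p : ℝ) ^ k) ^ d * (r0 * (1 / 4) ^ j * ((p : ℝ) ^ (γ + k * j)) ^ (d - 1)) :=
        mul_le_mul_of_nonneg_left ih (by positivity)
      have h6 : ((p : ℝ) ^ k) ^ d * ((p : ℝ) ^ (γ + k * j)) ^ (d - 1) =
          (p : ℝ) ^ k * ((p : ℝ) ^ (γ + k * (j + 1))) ^ (d - 1) := by
        have e1 : (p : ℝ) ^ (γ + k * (j + 1)) = (p : ℝ) ^ k * (p : ℝ) ^ (γ + k * j) := by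
          rw [← pow_add]; congr 1; ring
        have e2 : ((p : ℝ) ^ k) ^ d = (p : ℝ) ^ k * ((p : ℝ) ^ k) ^ (d - 1) := by
          rw [← pow_succ']; congr 1; omega
        rw [e1, mul_pow, e2]
        ring
      have h7 : (p : ℝ) ^ k * 4 ≤ (p : ℝ) ^ d := by
        have e1 : (p : ℝ) ^ d = (p : ℝ) ^ (d - (k + 2)) * ((p : ℝ) ^ k * (p : ℝ) ^ 2) := by
          rw [← pow_add, ← pow_add]; congr 1; omega
        have e2 : (1 : ℝ) ≤ (p : ℝ) ^ (d - (k + 2)) := one_le_pow₀ hp1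
        have e3 : (4 : ℝ) ≤ (p : ℝ) ^ 2 := by nlinarith
        have e4 : 0 < (p : ℝ) ^ k := by positivity
        rw [e1]
        have e5 : (p : ℝ) ^ k * 4 ≤ (p : ℝ) ^ k * (p : ℝ) ^ 2 := mul_le_mul_of_nonneg_left e3 e4.le
        have e6 : 0 < (p : ℝ) ^ k * (p : ℝ) ^ 2 := by positivity
        nlinarith
      have hpd : (0 : ℝ) < (p : ℝ) ^ d := by positivity
      have hr00 : 0 ≤ r0 := Nat.cast_nonneg _
      have h8 : (N (p ^ (γ + k * (j + 1))) k d 0 : ℝ) * (p : ℝ) ^ d ≤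
          (r0 * (1 / 4) ^ (j + 1) * ((p : ℝ) ^ (γ + k * (j + 1))) ^ (d - 1)) * (p : ℝ) ^ d := by
        rw [h4]
        refine h5.trans ?_
        have e1 : ((p : ℝ) ^ k) ^ d * (r0 * (1 / 4) ^ j * ((p : ℝ) ^ (γ + k * j)) ^ (d - 1)) =
            (r0 * (1 / 4) ^ j) * (((p : ℝ) ^ k) ^ d * ((p : ℝ) ^ (γ + k * j)) ^ (d - 1)) := by ring
        rw [e1, h6]
        have e2 : 0 ≤ (r0 * (1 / 4) ^ j) * ((p : ℝ) ^ (γ + k * (j + 1))) ^ (d - 1) := by positivity
        have e3 := mul_le_mul_of_nonneg_left h7 e2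
        rw [pow_succ (1 / 4 : ℝ) j]
        nlinarith
      exact le_of_mul_le_mul_right h8 hpd
  have hfin : ∀ j : ℕ, c ≤ r0 * (1 / 4) ^ j := by
    intro j
    have h1 := (h (p ^ (γ + k * j)) (Nat.one_le_pow _ _ hp.pos) 0 (N_pos_zero (by omega))).1
    push_cast at h1
    have h2 := h1.trans (key j)
    have hQ : (0 : ℝ) < ((p : ℝ) ^ (γ + k * j)) ^ (d - 1) := by positivity
    exact le_of_mul_le_mul_right h2 hQ
  have hr0pos : 0 < r0 := by
    have := hfin 0
    rw [pow_zero, mul_one] at this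
    linarith
  obtain ⟨j, hj⟩ := exists_pow_lt_of_lt_one (show 0 < c / r0 by positivity) (show (1 / 4 : ℝ) < 1 by norm_num)
  have h1 := hfin j
  rw [lt_div_iff₀ hr0pos] at hj
  linarith

end Pool.Agent.V5helper16.CT
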