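import Mathlib
import Pool.Agent.V5helper16.CT.A8

/-! Averages of `N_{k,d}(r)` over arithmetic progressions. -/

set_option autoImplicit false

open Finset

namespace Pool.Agent.V5helper16.CT

/-- the integer vectors with `∑ |m_i| ^ k ≤ X` in the class `n` modulo `q` -/
def T (k d X q : ℕ) (n : ZMod q) : Set (Fin d → ℤ) :=
  {m | ∑ i, (m i).natAbs ^ k ≤ X ∧ ((∑ i, (m i).natAbs ^ k : ℕ) : ZMod q) = n}

lemma T_finite {k d X q : ℕ} (hk : 1 ≤ k) (n : ZMod q) : (T k d X q n).Finite := by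
  apply Set.Finite.subset (Set.Finite.pi' (fun _ : Fin d => Set.finite_Icc (-(X : ℤ)) X))
  intro m hm i
  obtain ⟨h1, _⟩ := hm
  have h2 : (m i).natAbs ^ k ≤ X :=
    (single_le_sum (f := fun i => (m i).natAbs ^ k) (fun _ _ => Nat.zero_le _) (mem_univ i)).trans h1
  have h3 : (m i).natAbs ≤ (m i).natAbs ^ k := Nat.le_self_pow (by omega) _
  rw [Set.mem_Icc]
  omega

/-- solutions in a box whose side is a multiple of `q` -/
lemma card_box {k d q L : ℕ} [NeZero q] [NeZero (L * q)] (n : ZMod q) :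
    Nat.card {x : Fin d → ZMod (L * q) // ((∑ i, (x i).val ^ k : ℕ) : ZMod q) = n} = L ^ d * N q k d n := by
  classical
  have hq : 0 < q := Nat.pos_of_ne_zero (NeZero.ne q)
  rw [Nat.card_eq_fintype_card, Fintype.card_subtype, N_eq]
  set S := univ.filter (fun x : Fin d → ZMod q => ∑ i, x i ^ k = n) with hS
  have h := card_red (ι := Fin d) (Dvd.intro_left L rfl : q ∣ L * q) S
  rw [Fintype.card_fin, mul_pow, mul_right_comm] at h
  have h2 := Nat.eq_of_mul_eq_mul_right (pow_pos hq d) h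
  rw [← h2]
  congr 1
  ext x
  rw [mem_filter, mem_filter, hS, mem_filter]
  have e : ∀ i, ZMod.castHom (Dvd.intro_left L rfl : q ∣ L * q) (ZMod q) (x i) = (((x i).val : ℕ) : ZMod q) := by
    intro i
    conv_lhs => rw [← ZMod.natCast_zmod_val (x i)]
    rw [map_natCast]
  simp only [e, mem_univ, true_and]
  push_cast
  rfl

lemma T_lower {k d X q L : ℕ} (hk : 1 ≤ k) (hq : 1 ≤ q) (hL : 1 ≤ L) (n : ZMod q)
    (hX : d * (L * q) ^ k ≤ X) : L ^ d * N q k d n ≤ (T k d X q n).ncard := by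
  classical
  have : NeZero q := ⟨by omega⟩
  have : NeZero (L * q) := ⟨(Nat.mul_pos hL hq).ne'⟩
  rw [← card_box (L := L) n, ← Nat.card_coe_set_eq]
  have hf := (T_finite (k := k) (d := d) (X := X) hk n).to_subtype
  apply Nat.card_le_card_of_injective
    (fun x : {x : Fin d → ZMod (L * q) // ((∑ i, (x i).val ^ k : ℕ) : ZMod q) = n} =>
      (⟨fun i => ((x.1 i).val : ℤ), by
        constructor
        · simp only [Int.natAbs_natCast]
          calc ∑ i, (x.1 i).val ^ k ≤ ∑ _i : Fin d, (L * q) ^ k :=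
                sum_le_sum (fun i _ => Nat.pow_le_pow_left (ZMod.val_lt _).le k)
            _ = d * (L * q) ^ k := by rw [sum_const, card_univ, Fintype.card_fin, smul_eq_mul]
            _ ≤ X := hX
        · simp only [Int.natAbs_natCast]
          exact x.2⟩ : T k d X q n))
  intro x y hxy
  apply Subtype.ext
  funext i
  have h1 := congrFun (congrArg Subtype.val hxy) i
  simp only at h1
  exact ZMod.val_injective _ (by exact_mod_cast h1)

lemma T_upper {k d X q L : ℕ} (_hk : 1 ≤ k) (hq : 1 ≤ q) (hL : 1 ≤ L) (n : ZMod q)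
    (hX : X < (L * q) ^ k) : (T k d X q n).ncard ≤ 2 ^ d * (L ^ d * N q k d n) := by
  classical
  have : NeZero q := ⟨by omega⟩
  have hLq : NeZero (L * q) := ⟨(Nat.mul_pos hL hq).ne'⟩
  have hlt : ∀ m ∈ T k d X q n, ∀ i, (m i).natAbs < L * q := by
    intro m hm i
    obtain ⟨h1, _⟩ := hm
    have h2 : (m i).natAbs ^ k ≤ X :=
      (single_le_sum (f := fun i => (m i).natAbs ^ k) (fun _ _ => Nat.zero_le _) (mem_univ i)).trans h1
    exact lt_of_pow_lt_pow_left₀ k (Nat.zero_le _) (h2.trans_lt hX)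
  have h2 : 2 ^ d = Nat.card (Fin d → Bool) := by
    rw [Nat.card_eq_fintype_card, Fintype.card_fun, Fintype.card_fin, Fintype.card_bool]
  rw [← card_box (L := L) n, h2, ← Nat.card_prod, ← Nat.card_coe_set_eq]
  apply Nat.card_le_card_of_injective
    (fun m : T k d X q n => ((fun i => decide (m.1 i < 0)),
      (⟨fun i => (((m.1 i).natAbs : ℕ) : ZMod (L * q)), by
        have h3 : ∀ i, ((((m.1 i).natAbs : ℕ) : ZMod (L * q))).val = (m.1 i).natAbs :=
          fun i => ZMod.val_natCast_of_lt (hlt m.1 m.2 i)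
        simp only [h3]
        exact m.2.2⟩ : {x : Fin d → ZMod (L * q) // ((∑ i, (x i).val ^ k : ℕ) : ZMod q) = n})))
  intro m m' h
  apply Subtype.ext
  funext i
  have h3 := congrFun (congrArg Prod.fst h) i
  have h4 := congrFun (congrArg Subtype.val (congrArg Prod.snd h)) i
  simp only at h3 h4
  have h5 : (m.1 i).natAbs = (m'.1 i).natAbs := by
    have := congrArg ZMod.val h4
    rwa [ZMod.val_natCast_of_lt (hlt m.1 m.2 i), ZMod.val_natCast_of_lt (hlt m'.1 m'.2 i)] at this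
  have h6 : (m.1 i < 0) ↔ (m'.1 i < 0) := by
    rw [← decide_eq_decide]; exact h3
  omega

/-- both bounds, in the form of powers of `X` -/
lemma T_bounds {k d : ℕ} (hk : 1 ≤ k) (hd : 1 ≤ d) (q : ℕ) (hq : 1 ≤ q) (n : ZMod q) :
    ∃ X0 : ℕ, ∀ X : ℕ, X0 ≤ X →
      (1 / ((2 : ℝ) ^ d * (d : ℝ) ^ ((d : ℝ) / k))) * (N q k d n / (q : ℝ) ^ d) * (X : ℝ) ^ ((d : ℝ) / k) ≤
        ((T k d X q n).ncard : ℝ) ∧
      ((T k d X q n).ncard : ℝ) ≤ 4 ^ d * (N q k d n / (q : ℝ) ^ d) * (X : ℝ) ^ ((d : ℝ) / k) := by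
  have hqR : (1 : ℝ) ≤ q := by exact_mod_cast hq
  have hq0 : (0 : ℝ) < q := by linarith
  have hdR : (1 : ℝ) ≤ d := by exact_mod_cast hd
  have hkR : (1 : ℝ) ≤ k := by exact_mod_cast hk
  have hk0 : (k : ℝ) ≠ 0 := by linarith
  refine ⟨d * q ^ k, fun X hX => ?_⟩
  have hXR : (d : ℝ) * (q : ℝ) ^ k ≤ X := by exact_mod_cast hX
  have hX0 : (0 : ℝ) < X := lt_of_lt_of_le (by positivity) hXR
  -- the two radii
  set ρ : ℝ := (X : ℝ) ^ (1 / (k : ℝ)) with hρ
  have hρ0 : 0 < ρ := Real.rpow_pos_of_pos hX0 _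
  have hρk : ρ ^ k = X := by
    rw [hρ, ← Real.rpow_natCast, ← Real.rpow_mul hX0.le, one_div_mul_cancel hk0, Real.rpow_one]
  have hρd : ρ ^ d = (X : ℝ) ^ ((d : ℝ) / k) := by
    rw [hρ, ← Real.rpow_natCast, ← Real.rpow_mul hX0.le]
    congr 1
    ring
  set δ : ℝ := (d : ℝ) ^ (1 / (k : ℝ)) with hδ
  have hδ1 : 1 ≤ δ := Real.one_le_rpow hdR (by positivity)
  have hδk : δ ^ k = d := by
    rw [hδ, ← Real.rpow_natCast, ← Real.rpow_mul (by linarith), one_div_mul_cancel hk0, Real.rpow_one]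
  have hδd : δ ^ d = (d : ℝ) ^ ((d : ℝ) / k) := by
    rw [hδ, ← Real.rpow_natCast, ← Real.rpow_mul (by linarith)]
    congr 1
    ring
  have hqρ : δ * q ≤ ρ := by
    apply le_of_pow_le_pow_left₀ (n := k) (by omega) hρ0.le
    rw [hρk, mul_pow, hδk]
    exact hXR
  have hN : (0 : ℝ) ≤ (N q k d n : ℝ) := Nat.cast_nonneg _
  constructor
  · -- lower bound
    set L : ℕ := ⌊ρ / (δ * q)⌋₊ with hL
    have hδq : 0 < δ * q := by positivity
    have h1 : 1 ≤ ρ / (δ * q) := by rw [le_div_iff₀ hδq]; linarith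
    have hL1 : 1 ≤ L := by
      rw [hL]
      exact (Nat.one_le_floor_iff _).mpr h1
    have hL2 : (L : ℝ) ≤ ρ / (δ * q) := Nat.floor_le (by positivity)
    have hL3 : ρ / (δ * q) < L + 1 := Nat.lt_floor_add_one _
    have hL1R : (1 : ℝ) ≤ L := by exact_mod_cast hL1
    have hL4 : ρ / (2 * δ * q) ≤ L := by
      have : ρ / (2 * δ * q) = (ρ / (δ * q)) / 2 := by field_simp
      rw [this]; linarith
    have h2 : d * (L * q) ^ k ≤ X := by
      have h3 : (d : ℝ) * ((L : ℝ) * q) ^ k ≤ X := by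
        rw [← hδk, ← hρk, ← mul_pow]
        apply pow_le_pow_left₀ (by positivity)
        rw [le_div_iff₀ hδq] at hL2
        linarith
      exact_mod_cast h3
    have h3 := T_lower (d := d) hk hq hL1 n h2
    have h4 : (L : ℝ) ^ d * (N q k d n : ℝ) ≤ ((T k d X q n).ncard : ℝ) := by exact_mod_cast h3
    refine le_trans ?_ h4
    have h5 : (ρ / (2 * δ * q)) ^ d ≤ (L : ℝ) ^ d := pow_le_pow_left₀ (by positivity) hL4 d
    have h6 : (1 / ((2 : ℝ) ^ d * (d : ℝ) ^ ((d : ℝ) / k))) * (N q k d n / (q : ℝ) ^ d) * (X : ℝ) ^ ((d : ℝ) / k) =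
        (ρ / (2 * δ * q)) ^ d * (N q k d n : ℝ) := by
      rw [← hρd, ← hδd, div_pow, mul_pow, mul_pow]
      field_simp
    rw [h6]
    exact mul_le_mul_of_nonneg_right h5 hN
  · -- upper bound
    set L : ℕ := ⌊ρ / q⌋₊ + 1 with hL
    have h1 : 1 ≤ ρ / q := by
      rw [le_div_iff₀ hq0]
      nlinarith
    have hL2 : ρ / q < L := by rw [hL]; push_cast; exact Nat.lt_floor_add_one _
    have hL3 : (L : ℝ) ≤ 2 * (ρ / q) := by
      rw [hL]; push_cast
      have := Nat.floor_le (show 0 ≤ ρ / q by positivity)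
      linarith
    have h2 : X < (L * q) ^ k := by
      have h3 : (X : ℝ) < ((L : ℝ) * q) ^ k := by
        rw [← hρk]
        apply pow_lt_pow_left₀ _ hρ0.le (by omega)
        rwa [div_lt_iff₀ hq0] at hL2
      exact_mod_cast h3
    have h3 := T_upper (d := d) hk hq (by omega : 1 ≤ L) n h2
    have h4 : ((T k d X q n).ncard : ℝ) ≤ 2 ^ d * ((L : ℝ) ^ d * (N q k d n : ℝ)) := by exact_mod_cast h3
    refine h4.trans ?_
    have h5 : (L : ℝ) ^ d ≤ (2 * (ρ / q)) ^ d := pow_le_pow_left₀ (by positivity) hL3 d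
    have h6 : 4 ^ d * (N q k d n / (q : ℝ) ^ d) * (X : ℝ) ^ ((d : ℝ) / k) =
        2 ^ d * ((2 * (ρ / q)) ^ d * (N q k d n : ℝ)) := by
      rw [← hρd, mul_pow, div_pow]
      have : (4 : ℝ) ^ d = 2 ^ d * 2 ^ d := by rw [← mul_pow]; norm_num
      rw [this]
      field_simp
    rw [h6]
    have h7 : (0 : ℝ) ≤ 2 ^ d := by positivity
    exact mul_le_mul_of_nonneg_left (mul_le_mul_of_nonneg_right h5 hN) h7

/-- the averaged form of the problem -/
def AverageOrderT (k d : ℕ) : Prop :=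
  ∃ c C : ℝ, 0 < c ∧ c ≤ C ∧ ∀ q : ℕ, 1 ≤ q → ∀ n : ZMod q, N q k d n ≠ 0 →
    ∃ X0 : ℕ, ∀ X : ℕ, X0 ≤ X →
      c * ((X : ℝ) ^ ((d : ℝ) / k) / q) ≤ ((T k d X q n).ncard : ℝ) ∧
      ((T k d X q n).ncard : ℝ) ≤ C * ((X : ℝ) ^ ((d : ℝ) / k) / q)

theorem average_iff {k d : ℕ} (hk : 1 ≤ k) (hd : 1 ≤ d) : AverageOrderT k d ↔ CongruenceOrder k d := by
  have hdR : (1 : ℝ) ≤ d := by exact_mod_cast hd
  set A1 : ℝ := 1 / ((2 : ℝ) ^ d * (d : ℝ) ^ ((d : ℝ) / k)) with hA1
  have hA1p : 0 < A1 := by positivity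
  have hA1le : A1 ≤ 1 := by
    rw [hA1, div_le_one (by positivity)]
    have h1 : (1 : ℝ) ≤ 2 ^ d := one_le_pow₀ (by norm_num)
    have h2 : (1 : ℝ) ≤ (d : ℝ) ^ ((d : ℝ) / k) := Real.one_le_rpow hdR (by positivity)
    nlinarith
  have h4 : (1 : ℝ) ≤ 4 ^ d := one_le_pow₀ (by norm_num)
  have key : ∀ q : ℕ, 1 ≤ q → ∀ n : ZMod q,
      (N q k d n : ℝ) / (q : ℝ) ^ d = ((N q k d n : ℝ) / (q : ℝ) ^ (d - 1)) / q := by
    intro q hq n
    have hq0 : (0 : ℝ) < q := by exact_mod_cast hq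
    have e : (q : ℝ) ^ d = (q : ℝ) ^ (d - 1) * q := by rw [← pow_succ]; congr 1; omega
    rw [e, div_div]
  constructor
  · rintro ⟨c, C, hc, hcC, h⟩
    refine ⟨c / 4 ^ d, C / A1, by positivity, ?_, ?_⟩
    · have hC : 0 < C := by linarith
      calc c / 4 ^ d ≤ c := div_le_self hc.le h4
        _ ≤ C := hcC
        _ ≤ C / A1 := by rw [le_div_iff₀ hA1p]; nlinarith
    · intro q hq n hN
      have hq0 : (0 : ℝ) < q := by exact_mod_cast hq
      obtain ⟨X0, h1⟩ := h q hq n hN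
      obtain ⟨X1, h2⟩ := T_bounds (k := k) (d := d) hk hd q hq n
      set X := max (max X0 X1) 1 with hX
      obtain ⟨h3, h5⟩ := h1 X (by omega)
      obtain ⟨h6, h7⟩ := h2 X (by omega)
      have hXpos : (0 : ℝ) < (X : ℝ) ^ ((d : ℝ) / k) := by
        apply Real.rpow_pos_of_pos
        have : 1 ≤ X := by omega
        exact_mod_cast this
      have hQ : (0 : ℝ) < (q : ℝ) ^ (d - 1) := by positivity
      rw [key q hq n] at h6 h7
      set u : ℝ := (N q k d n : ℝ) / (q : ℝ) ^ (d - 1) with hu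
      have hNu : (N q k d n : ℝ) = u * (q : ℝ) ^ (d - 1) := by rw [hu]; field_simp
      have hw : 0 < (X : ℝ) ^ ((d : ℝ) / k) / q := by positivity
      have h8 : c * ((X : ℝ) ^ ((d : ℝ) / k) / q) ≤ (4 ^ d * u) * ((X : ℝ) ^ ((d : ℝ) / k) / q) := by
        refine (h3.trans h7).trans (le_of_eq ?_)
        ring
      have h9 : (A1 * u) * ((X : ℝ) ^ ((d : ℝ) / k) / q) ≤ C * ((X : ℝ) ^ ((d : ℝ) / k) / q) := by
        refine le_trans (le_of_eq ?_) (h6.trans h5)
        ring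
      have h10 := le_of_mul_le_mul_right h8 hw
      have h11 := le_of_mul_le_mul_right h9 hw
      rw [hNu]
      constructor
      · apply mul_le_mul_of_nonneg_right _ hQ.le
        rw [div_le_iff₀ (by positivity)]
        linarith
      · apply mul_le_mul_of_nonneg_right _ hQ.le
        rw [le_div_iff₀ hA1p]
        linarith
  · rintro ⟨c, C, hc, hcC, h⟩
    refine ⟨A1 * c, 4 ^ d * C, by positivity, ?_, ?_⟩
    · have hC : 0 < C := by linarith
      calc A1 * c ≤ 1 * c := mul_le_mul_of_nonneg_right hA1le hc.le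
        _ ≤ 1 * C := by linarith
        _ ≤ 4 ^ d * C := mul_le_mul_of_nonneg_right h4 hC.le
    · intro q hq n hN
      have hq0 : (0 : ℝ) < q := by exact_mod_cast hq
      obtain ⟨h1, h2⟩ := h q hq n hN
      obtain ⟨X1, h3⟩ := T_bounds (k := k) (d := d) hk hd q hq n
      refine ⟨max X1 1, fun X hX => ?_⟩
      obtain ⟨h6, h7⟩ := h3 X (by omega)
      have hXpos : (0 : ℝ) < (X : ℝ) ^ ((d : ℝ) / k) := by
        apply Real.rpow_pos_of_pos
        have : 1 ≤ X := by omega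
        exact_mod_cast this
      have hQ : (0 : ℝ) < (q : ℝ) ^ (d - 1) := by positivity
      rw [key q hq n] at h6 h7
      set u : ℝ := (N q k d n : ℝ) / (q : ℝ) ^ (d - 1) with hu
      have hu1 : c ≤ u := by rw [hu, le_div_iff₀ hQ]; exact h1
      have hu2 : u ≤ C := by rw [hu, div_le_iff₀ hQ]; exact h2
      have hw : 0 < (X : ℝ) ^ ((d : ℝ) / k) / q := by positivity
      constructor
      · refine le_trans ?_ h6
        have e : A1 * (u / q) * (X : ℝ) ^ ((d : ℝ) / k) = (A1 * u) * ((X : ℝ) ^ ((d : ℝ) / k) / q) := by ring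
        rw [e]
        exact mul_le_mul_of_nonneg_right (mul_le_mul_of_nonneg_left hu1 hA1p.le) hw.le
      · refine h7.trans ?_
        have e : 4 ^ d * (u / q) * (X : ℝ) ^ ((d : ℝ) / k) = (4 ^ d * u) * ((X : ℝ) ^ ((d : ℝ) / k) / q) := by ring
        rw [e]
        exact mul_le_mul_of_nonneg_right (mul_le_mul_of_nonneg_left hu2 (by positivity)) hw.le

/-- the count as a sum over the spheres -/
lemma T_eq_sum {k d X q : ℕ} (hk : 1 ≤ k) (n : ZMod q) :
    (T k d X q n).ncard = ∑ x ∈ (range (X + 1)).filter (fun x : ℕ => ((x : ℕ) : ZMod q) = n),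
      (TH854.KS.sphere k d ((x : ℝ) ^ (1 / (k : ℝ)))).ncard := by
  classical
  have hk0 : (k : ℝ) ≠ 0 := by
    have : k ≠ 0 := by omega
    exact_mod_cast this
  have hmem : ∀ (x : ℕ) (m : Fin d → ℤ), m ∈ TH854.KS.sphere k d ((x : ℝ) ^ (1 / (k : ℝ))) ↔
      ∑ i, (m i).natAbs ^ k = x := by
    intro x m
    unfold TH854.KS.sphere
    rw [Set.mem_ofPred_eq]
    have h1 : ((x : ℝ) ^ (1 / (k : ℝ))) ^ k = x := by
      rw [← Real.rpow_natCast, ← Real.rpow_mul (Nat.cast_nonneg _), one_div_mul_cancel hk0, Real.rpow_one]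
    rw [h1]
    have h : ∀ i, |(m i : ℝ)| = (((m i).natAbs : ℕ) : ℝ) := by
      intro i
      rw [Nat.cast_natAbs, Int.cast_abs]
    simp_rw [h]
    constructor
    · intro h1; exact_mod_cast h1
    · intro h1; exact_mod_cast h1
  set F := (T_finite (k := k) (d := d) (X := X) hk n).toFinset with hF
  rw [Set.ncard_eq_toFinset_card _ (T_finite (k := k) (d := d) (X := X) hk n), ← hF]
  have hmap : ∀ m ∈ F, (fun m : Fin d → ℤ => ∑ i, (m i).natAbs ^ k) m ∈
      (range (X + 1)).filter (fun x : ℕ => ((x : ℕ) : ZMod q) = n) := by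
    intro m hm
    rw [hF, Set.Finite.mem_toFinset] at hm
    rw [mem_filter, mem_range]
    exact ⟨Nat.lt_succ_of_le hm.1, hm.2⟩
  rw [card_eq_sum_card_fiberwise hmap]
  apply sum_congr rfl
  intro x hx
  rw [mem_filter, mem_range] at hx
  rw [← Set.ncard_coe_finset]
  congr 1
  ext m
  rw [mem_coe, mem_filter, hF, Set.Finite.mem_toFinset, hmem]
  constructor
  · rintro ⟨_, h⟩
    exact h
  · intro h
    exact ⟨⟨by rw [h]; omega, by rw [h]; exact hx.2⟩, h⟩

end Pool.Agent.V5helper16.CT
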